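import Pool.Agent.Helper66.TR.IndTh

/-!
# The hull criterion and good filtrations
-/

set_option autoImplicit false
set_option linter.unusedSectionVars false

namespace Pool.Agent.Helper66.TR

open Finset

section

variable {k : Type*} [Field k] [Infinite k] {V W : Type*} [AddCommGroup V] [Module k V]
  [AddCommGroup W] [Module k W] {ρ : Representation k (G k) V} {σ : Representation k (G k) W}

/-! ### from filtrations to the criterion -/

lemma Pn_of_inj (hρ : IsRational ρ) (hσ : IsRational σ) {φ : V →ₗ[k] W} (hφ : IsEquiv ρ σ φ)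
    (hinj : Function.Injective φ) {n : ℕ} {v : V} (hv : φ v ∈ Pn hσ n) : v ∈ Pn hρ n := by
  intro g l hl
  apply hinj
  rw [map_zero, map_wt hρ hσ hφ, hφ]
  exact hv g l hl

lemma isWt_of_inj {φ : V →ₗ[k] W} (hφ : IsEquiv ρ σ φ)
    (hinj : Function.Injective φ) {n : ℤ} {v : V} (hv : IsWt σ n (φ v)) : IsWt ρ n v := by
  intro z
  apply hinj
  rw [hφ, hv z, map_smul]

lemma GoodIn.comap_inj (hρ : IsRational ρ) (hσ : IsRational σ) {φ : V →ₗ[k] W}
    (hφ : IsEquiv ρ σ φ) (hinj : Function.Injective φ) {A : Submodule k W}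
    (hA : A ≤ LinearMap.range φ) (hG : GoodIn hσ A) : GoodIn hρ (A.comap φ) := by
  intro n v hv hvn hvw i hi
  obtain ⟨w', h1, h2, h3, h4⟩ := hG n (φ v) hv (map_Pn hρ hσ hφ hvn) (hvw.map hφ) i hi
  obtain ⟨w, rfl⟩ := hA h1
  refine ⟨w, h1, Pn_of_inj hρ hσ hφ hinj h2, isWt_of_inj hφ hinj h3, ?_⟩
  apply hinj
  rw [map_Eo hρ hσ hφ, h4]

lemma GoodIn.layer (hρ : IsRational ρ) {A B : Submodule k V} (hB : Stable ρ B) {n : ℕ}
    (h : IsLayer (indRep k n) ρ A B) (hA : GoodIn hρ A) : GoodIn hρ B := by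
  obtain ⟨hAB, f, hf1, hf2, hf3⟩ := h
  have hs := isRational_sub hρ hB
  have hf : IsEquiv (sub ρ hB) (indRep k n) f := fun g x => hf3 g x _ rfl
  have hker : LinearMap.ker f = A.comap B.subtype := by
    ext x
    rw [LinearMap.mem_ker, hf2, Submodule.mem_comap]
    rfl
  have h1 : GoodIn hs (⊤ ⊓ LinearMap.ker f) := by
    rw [top_inf_eq, hker]
    exact GoodIn.comap_inj hs hρ (sub_isEquiv hB) B.injective_subtype
      (by rwa [Submodule.range_subtype]) hA
  have h2 : GoodIn (isRational_ind (k := k) n) (Submodule.map f ⊤) := by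
    rw [Submodule.map_top, LinearMap.range_eq_top.2 hf1]
    exact GoodIn.ind n
  have h3 := GoodIn.ext hs (isRational_ind n) hf Stable.top h1 h2
  have h4 := GoodIn.map_inj hs hρ (sub_isEquiv hB) B.injective_subtype Stable.top h3
  rwa [Submodule.map_top, Submodule.range_subtype] at h4

theorem GoodIn.of_filtration (hρ : IsRational ρ) {X : Submodule k V}
    (h : HasGoodFiltration ρ X) : GoodIn hρ X := by
  obtain ⟨N, h0, hst, hstep, rfl⟩ := h
  have hle : ∀ i, N i ≤ N (i + 1) := by
    intro i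
    rcases hstep i with h | ⟨n, h⟩
    · exact h.le
    · exact h.1
  apply GoodIn.iSup hρ N (monotone_nat_of_le_succ hle)
  intro i
  induction i with
  | zero => rw [h0]; exact GoodIn.bot hρ
  | succ i ih =>
    rcases hstep i with h | ⟨n, h⟩
    · rwa [← h]
    · exact GoodIn.layer hρ (hst (i + 1)) h ih

/-! ### steps -/

/-- one step of a good filtration -/
def GStep (ρ : Representation k (G k) V) (A B : Submodule k V) : Prop :=
  Stable ρ A ∧ Stable ρ B ∧ ∃ n, IsLayer (indRep k n) ρ A B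

/-- a finite good filtration -/
def Reach (ρ : Representation k (G k) V) : Submodule k V → Submodule k V → Prop :=
  Relation.ReflTransGen (GStep ρ)

lemma Reach.stable {A B : Submodule k V} (h : Reach ρ A B) (hA : Stable ρ A) : Stable ρ B := by
  cases h with
  | refl => exact hA
  | tail _ h => exact h.2.1

lemma Reach.good (hρ : IsRational ρ) {A B : Submodule k V} (h : Reach ρ A B)
    (hA : GoodIn hρ A) : GoodIn hρ B := by
  induction h with
  | refl => exact hA
  | tail _ h ih =>
    obtain ⟨n, hn⟩ := h.2.2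
    exact GoodIn.layer hρ h.2.1 hn ih

/-! ### the map to the induced module -/

/-- Frobenius reciprocity -/
lemma frob_mem (hρ : IsRational ρ) {n : ℕ} {v : V} (hv : v ∈ Pn hρ (n + 1)) (lam : V →ₗ[k] k) :
    (fun g : G k => lam (wt hρ n (ρ g⁻¹ v))) ∈ Ind k n := by
  constructor
  · obtain ⟨m, f, w, h⟩ := hρ v
    refine ⟨∑ i, MvPolynomial.aeval (fun p : Fin 2 × Fin 2 =>
      (!![MvPolynomial.X (1, 1), -MvPolynomial.X (0, 1); -MvPolynomial.X (1, 0),
        MvPolynomial.X (0, 0)] : Matrix (Fin 2) (Fin 2) (MvPolynomial (Fin 2 × Fin 2) k)) p.1 p.2)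
        (f i) * MvPolynomial.C (lam (wt hρ n (w i))), fun g => ?_⟩
    beta_reduce
    rw [h, map_sum, map_sum, map_sum]
    apply sum_congr rfl
    intro i _
    rw [map_smul, map_smul, map_mul, MvPolynomial.eval_C, eval_aeval', smul_eq_mul]
    congr 3
    funext p
    obtain ⟨i, j⟩ := p
    rw [inv_entries]
    fin_cases i <;> fin_cases j <;> simp
  · intro g c z
    beta_reduce
    have e : (g * (lo c * tor z))⁻¹ = tor z⁻¹ * (lo (-c) * g⁻¹) := by
      have e1 : (tor z)⁻¹ = tor z⁻¹ := by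
        rw [inv_eq_iff_mul_eq_one, tor_mul, mul_inv_cancel, tor_one]
      have e2 : (lo c)⁻¹ = lo (-c) := by
        apply Subtype.ext
        rw [inv_entries]
        ext i j
        fin_cases i <;> fin_cases j <;> simp [lo]
      rw [mul_inv_rev, mul_inv_rev, e1, e2, mul_assoc]
    rw [e, mul_apply', wt_tor, mul_apply', lo_top hρ (Pn_stable hρ _ _ _ hv), map_smul,
      smul_eq_mul, zpow_natCast, Units.val_pow_eq_pow_val]

lemma exists_dual_eq_one {v : V} (hv : v ≠ 0) : ∃ lam : V →ₗ[k] k, lam v = 1 := by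
  have h := mt (Module.forall_dual_apply_eq_zero_iff k v).1 hv
  push Not at h
  obtain ⟨f, hf⟩ := h
  exact ⟨(f v)⁻¹ • f, by simp [hf]⟩

/-- the weight space -/
def wsp (ρ : Representation k (G k) V) (n : ℤ) : Submodule k V where
  carrier := {v | IsWt ρ n v}
  add_mem' := IsWt.add
  zero_mem' := isWt_zero n
  smul_mem' c _ h := h.smul c

lemma reach_top (hρ : IsRational ρ) (n : ℕ) : ∀ (d : ℕ) (L : Submodule k V), Stable ρ L →
    Module.Finite k L → L ≤ Pn hρ (n + 1) →
    Module.finrank k (L ⊓ wsp ρ n : Submodule k V) ≤ d →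
    (∀ v ∈ L, IsWt ρ n v → ∀ i ≤ n, ∃ w ∈ L, IsWt ρ (n - 2 * i) w ∧ Eo hρ i w = v) →
    Reach ρ (L ⊓ Pn hρ n) L := by
  intro d
  induction d with
  | zero =>
    intro L hL hfin hLn hd hw
    have hLfin : Module.Finite k (L ⊓ wsp ρ n : Submodule k V) :=
      Submodule.finiteDimensional_inf_left L (wsp ρ n)
    have h1 : L ⊓ wsp ρ n = ⊥ := by
      rw [Nat.le_zero, Submodule.finrank_eq_zero] at hd
      exact hd
    have h2 : L ≤ Pn hρ n := by
      intro v hv
      apply mem_Pn_of hρ (hLn hv)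
      intro g
      have : wt hρ n (ρ g v) ∈ L ⊓ wsp ρ n :=
        ⟨hL.wt_mem hρ (hL g v hv) n, wt_isWt hρ _ _⟩
      rw [h1] at this
      exact this
    rw [inf_eq_left.2 h2]
    exact Relation.ReflTransGen.refl
  | succ d ih =>
    intro L hL hfin hLn hd hw
    have hLfin : Module.Finite k (L ⊓ wsp ρ n : Submodule k V) :=
      Submodule.finiteDimensional_inf_left L (wsp ρ n)
    by_cases h0 : L ⊓ wsp ρ n = ⊥
    · exact ih L hL hfin hLn (by rw [h0]; simp) hw
    obtain ⟨p, ⟨hp1, hp2⟩, hp0⟩ := Submodule.exists_mem_ne_zero_of_ne_bot h0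
    obtain ⟨lam, hlam⟩ := exists_dual_eq_one (k := k) hp0
    -- the kernel of the map to the induced module
    let L' : Submodule k V :=
      { carrier := {v | v ∈ L ∧ ∀ g, lam (wt hρ n (ρ g v)) = 0}
        add_mem' := fun ha hb => ⟨L.add_mem ha.1 hb.1, fun g => by
          rw [map_add, map_add, map_add, ha.2, hb.2, add_zero]⟩
        zero_mem' := ⟨L.zero_mem, fun g => by rw [map_zero, map_zero, map_zero]⟩
        smul_mem' := fun c v hv => ⟨L.smul_mem c hv.1, fun g => by
          rw [map_smul, map_smul, map_smul, hv.2, smul_zero]⟩ }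
    have hL'L : L' ≤ L := fun v hv => hv.1
    have hL' : Stable ρ L' := fun g v hv => ⟨hL g v hv.1, fun h => by
      rw [← mul_apply']; exact hv.2 _⟩
    have hL'fin : Module.Finite k L' := Submodule.finiteDimensional_of_le hL'L
    have hinf : L' ⊓ Pn hρ n = L ⊓ Pn hρ n := by
      apply le_antisymm (inf_le_inf_right _ hL'L)
      rintro v ⟨h1, h2⟩
      refine ⟨⟨h1, fun g => ?_⟩, h2⟩
      rw [h2 g n le_rfl, map_zero]
    have hw' : ∀ v ∈ L', IsWt ρ n v → ∀ i ≤ n, ∃ w ∈ L', IsWt ρ (n - 2 * i) w ∧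
        Eo hρ i w = v := by
      intro v hv hvw i hi
      obtain ⟨w, w1, w2, w3⟩ := hw v hv.1 hvw i hi
      refine ⟨w, ⟨w1, fun g => ?_⟩, w2, w3⟩
      rw [K1 hρ hi (hLn w1) w2, w3, map_smul]
      have h1 := hv.2 1
      rw [map_one] at h1
      change lam (wt hρ n v) = 0 at h1
      rw [wt_self hρ hvw] at h1
      rw [h1, smul_zero]
    have hlt : Module.finrank k (L' ⊓ wsp ρ n : Submodule k V) <
        Module.finrank k (L ⊓ wsp ρ n : Submodule k V) := by
      apply Submodule.finrank_lt_finrank_of_lt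
      apply lt_of_le_of_ne (inf_le_inf_right _ hL'L)
      intro h
      have : p ∈ L' ⊓ wsp ρ n := by rw [h]; exact ⟨hp1, hp2⟩
      have h1 := this.1.2 1
      rw [map_one] at h1
      change lam (wt hρ n p) = 0 at h1
      rw [wt_self hρ hp2, hlam] at h1
      exact one_ne_zero h1
    have hR := ih L' hL' hL'fin (hL'L.trans hLn) (by omega) hw'
    rw [hinf] at hR
    refine hR.tail ⟨hL', hL, n, hL'L, ?_⟩
    -- the map
    let f : L →ₗ[k] Ind k n :=
      { toFun := fun x => ⟨fun g => lam (wt hρ n (ρ g⁻¹ x)), frob_mem hρ (hLn x.2) lam⟩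
        map_add' := fun x y => by
          apply Subtype.ext; funext g
          change lam (wt hρ n (ρ g⁻¹ ((x : V) + y))) = lam (wt hρ n (ρ g⁻¹ x)) +
            lam (wt hρ n (ρ g⁻¹ y))
          rw [map_add, map_add, map_add]
        map_smul' := fun c x => by
          apply Subtype.ext; funext g
          change lam (wt hρ n (ρ g⁻¹ (c • (x : V)))) = c • lam (wt hρ n (ρ g⁻¹ x))
          rw [map_smul, map_smul, map_smul] }
    have hf : ∀ (x : L) (g : G k), (f x).1 g = lam (wt hρ n (ρ g⁻¹ x)) := fun _ _ => rfl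
    refine ⟨f, ?_, ?_, ?_⟩
    · rw [← LinearMap.range_eq_top]
      apply ind_span
      intro i hi
      obtain ⟨w, w1, w2, w3⟩ := hw p hp1 hp2 i hi
      refine ⟨(-1 : k) ^ i • ⟨w, w1⟩, ?_⟩
      rw [map_smul]
      apply Subtype.ext
      funext g
      change (-1 : k) ^ i * (f ⟨w, w1⟩).1 g = _
      rw [hf, K1 hρ hi (hLn w1) w2, w3, map_smul, hlam, inv_entries, eb_apply]
      simp only [Matrix.of_apply, Matrix.cons_val', Matrix.cons_val_zero, Matrix.cons_val_one,
        Matrix.cons_val_fin_one, smul_eq_mul, mul_one]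
      rw [neg_pow]
      have e : (-1 : k) ^ i * (-1) ^ i = 1 := by rw [← mul_pow]; simp
      linear_combination (g.1 1 1 ^ (n - i) * g.1 0 1 ^ i) * e
    · intro x
      constructor
      · intro h
        refine ⟨x.2, fun g => ?_⟩
        have h1 := congrArg (fun F : Ind k n => F.1 g⁻¹) h
        beta_reduce at h1
        rw [hf, inv_inv] at h1
        exact h1
      · intro h
        apply Subtype.ext
        funext g
        rw [hf]
        exact h.2 _
    · intro g x y hy
      apply Subtype.ext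
      funext h
      change (f y).1 h = (f x).1 (g⁻¹ * h)
      rw [hf, hf, hy, ← mul_apply', mul_inv_rev, inv_inv]

end

end Pool.Agent.Helper66.TR
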