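import Pool.Agent.Helper66.TR.Chain

/-!
# From the hull criterion to good filtrations
-/

set_option autoImplicit false
set_option linter.unusedSectionVars false

namespace Pool.Agent.Helper66.TR

open Finset

section

variable {k : Type*} [Field k] [Infinite k] {V W : Type*} [AddCommGroup V] [Module k V]
  [AddCommGroup W] [Module k W] {ρ : Representation k (G k) V} {σ : Representation k (G k) W}

/-- the stable subspace generated by a vector -/
def hull (ρ : Representation k (G k) V) (v : V) : Submodule k V :=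
  Submodule.span k (Set.range fun g => ρ g v)

lemma hull_stable (ρ : Representation k (G k) V) (v : V) : Stable ρ (hull ρ v) := by
  intro g w hw
  have : hull ρ v ≤ (hull ρ v).comap (ρ g) := by
    unfold hull
    rw [Submodule.span_le]
    rintro _ ⟨h, rfl⟩
    change ρ g (ρ h v) ∈ Submodule.span k (Set.range fun g => ρ g v)
    rw [← mul_apply']
    exact Submodule.subset_span ⟨g * h, rfl⟩
  exact this hw

lemma mem_hull (ρ : Representation k (G k) V) (v : V) : v ∈ hull ρ v :=
  Submodule.subset_span ⟨1, by simp⟩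

lemma hull_le {X : Submodule k V} (hX : Stable ρ X) {v : V} (hv : v ∈ X) : hull ρ v ≤ X := by
  unfold hull
  rw [Submodule.span_le]
  rintro _ ⟨h, rfl⟩
  exact hX h v hv

lemma hull_finite (hρ : IsRational ρ) (v : V) : Module.Finite k (hull ρ v) := by
  obtain ⟨m, f, w, h⟩ := hρ v
  have h1 : hull ρ v ≤ Submodule.span k (Set.range w) := by
    unfold hull
    rw [Submodule.span_le]
    rintro _ ⟨g, rfl⟩
    beta_reduce
    rw [h]
    exact Submodule.sum_mem _ fun i _ =>
      Submodule.smul_mem _ _ (Submodule.subset_span ⟨i, rfl⟩)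
  have h2 : Module.Finite k (Submodule.span k (Set.range w)) :=
    FiniteDimensional.span_of_finite k (Set.finite_range w)
  exact Submodule.finiteDimensional_of_le h1

lemma Stable.iSup {ι : Type*} {N : ι → Submodule k V} (h : ∀ i, Stable ρ (N i)) :
    Stable ρ (⨆ i, N i) := by
  intro g v hv
  have : ⨆ i, N i ≤ (⨆ i, N i).comap (ρ g) := by
    apply iSup_le
    intro i w hw
    exact Submodule.mem_iSup_of_mem i (h i g w hw)
  exact this hv

end

section

variable {k : Type*} [Field k] [Infinite k] {V W : Type*} [AddCommGroup V] [Module k V]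
  [AddCommGroup W] [Module k W] {ρ : Representation k (G k) V} {σ : Representation k (G k) W}

theorem absorb (hρ : IsRational ρ) {K : Submodule k V} (hK : Stable ρ K) (hG : GoodIn hρ K) :
    ∀ (n : ℕ) (X : Submodule k V), Stable ρ X → Module.Finite k X → X ≤ K ⊓ Pn hρ n →
      ∃ L : Submodule k V, Stable ρ L ∧ Module.Finite k L ∧ X ≤ L ∧ L ≤ K ⊓ Pn hρ n ∧
        Reach ρ ⊥ L := by
  intro n
  induction n with
  | zero =>
    intro X hX hfin hle
    refine ⟨⊥, Stable.bot, inferInstance, ?_, bot_le, Relation.ReflTransGen.refl⟩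
    rw [Pn_zero] at hle
    exact hle.trans inf_le_right
  | succ n ih =>
    intro X hX hfin hle
    have hPfin : Module.Finite k (X ⊓ wsp ρ n : Submodule k V) :=
      Submodule.finiteDimensional_inf_left X (wsp ρ n)
    set P : Submodule k V := X ⊓ wsp ρ n with hP
    let b := Module.finBasis k P
    have hex : ∀ (j : Fin (Module.finrank k P)) (i : Fin (n + 1)), ∃ w ∈ K,
        w ∈ Pn hρ (n + 1) ∧ IsWt ρ (n - 2 * (i : ℕ)) w ∧ Eo hρ i w = b j := by
      intro j i
      have h1 : ((b j : P) : V) ∈ X := (b j).2.1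
      exact hG n (b j) (hle h1).1 (hle h1).2 (b j).2.2 i (by omega)
    choose w w1 w2 w3 w4 using hex
    set L2 : Submodule k V := X ⊔ ⨆ q : Fin (Module.finrank k P) × Fin (n + 1),
      hull ρ (w q.1 q.2) with hL2
    have hL2s : Stable ρ L2 := hX.sup (Stable.iSup fun q => hull_stable ρ _)
    have hL2f : Module.Finite k L2 := by
      have : ∀ q : Fin (Module.finrank k P) × Fin (n + 1),
        Module.Finite k (hull ρ (w q.1 q.2)) := fun q => hull_finite hρ _
      infer_instance
    have hL2K : L2 ≤ K ⊓ Pn hρ (n + 1) := by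
      apply sup_le hle
      apply iSup_le
      intro q
      exact hull_le (hK.inf (Pn_stable hρ _)) ⟨w1 _ _, w2 _ _⟩
    have hwt : L2 ≤ P.comap (wt hρ n) := by
      apply sup_le
      · intro x hx
        exact ⟨hX.wt_mem hρ hx n, wt_isWt hρ n x⟩
      · apply iSup_le
        intro q
        unfold hull
        rw [Submodule.span_le]
        rintro _ ⟨g, rfl⟩
        change wt hρ n (ρ g (w q.1 q.2)) ∈ P
        rw [K1 hρ (by omega) (w2 q.1 q.2) (w3 q.1 q.2), w4]
        exact P.smul_mem _ (b q.1).2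
    have hPL : ∀ v ∈ P, ∀ i ≤ n, ∃ u ∈ L2, IsWt ρ (n - 2 * i) u ∧ Eo hρ i u = v := by
      intro v hv i hi
      have h1 := b.sum_repr ⟨v, hv⟩
      have h2 : v = ∑ j, b.repr ⟨v, hv⟩ j • ((b j : P) : V) := by
        have h3 := congrArg (fun x : P => (x : V)) h1
        simp only [Submodule.coe_sum, Submodule.coe_smul] at h3
        exact h3.symm
      refine ⟨∑ j, b.repr ⟨v, hv⟩ j • w j ⟨i, by omega⟩, ?_, ?_, ?_⟩
      · apply L2.sum_mem
        intro j _
        apply L2.smul_mem
        apply Submodule.mem_sup_right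
        exact Submodule.mem_iSup_of_mem (j, ⟨i, by omega⟩) (mem_hull ρ _)
      · have : ∑ j, b.repr ⟨v, hv⟩ j • w j ⟨i, by omega⟩ ∈ wsp ρ (n - 2 * i) :=
          (wsp ρ (n - 2 * i)).sum_mem fun j _ => (w3 j ⟨i, by omega⟩).smul _
        exact this
      · rw [map_sum]
        conv_rhs => rw [h2]
        apply sum_congr rfl
        intro j _
        rw [map_smul]
        congr 1
        exact w4 j ⟨i, by omega⟩
    obtain ⟨L1, hL1s, hL1f, hL1X, hL1K, hL1R⟩ := ih (L2 ⊓ Pn hρ n) (hL2s.inf (Pn_stable hρ n))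
      (Submodule.finiteDimensional_inf_left L2 _)
      (le_inf (inf_le_left.trans (hL2K.trans inf_le_left)) inf_le_right)
    refine ⟨L1 ⊔ L2, hL1s.sup hL2s, inferInstance, ?_, ?_, ?_⟩
    · exact le_sup_left.trans le_sup_right
    · apply sup_le _ hL2K
      exact le_inf (hL1K.trans inf_le_left) ((hL1K.trans inf_le_right).trans
        (Pn_mono hρ (by omega)))
    · have hLP : L1 ⊔ L2 ≤ Pn hρ (n + 1) := sup_le ((hL1K.trans inf_le_right).trans
        (Pn_mono hρ (by omega))) (hL2K.trans inf_le_right)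
      have h1 := reach_top hρ n _ (L1 ⊔ L2) (hL1s.sup hL2s) inferInstance hLP le_rfl (by
        intro v hv hvw i hi
        obtain ⟨x, hx, y, hy, hxy⟩ := Submodule.mem_sup.1 hv
        have h2 : v ∈ P := by
          rw [← wt_self hρ hvw, ← hxy, map_add, Pn_wt hρ (hL1K hx).2 le_rfl, zero_add]
          exact hwt hy
        obtain ⟨u, u1, u2, u3⟩ := hPL v h2 i hi
        exact ⟨u, Submodule.mem_sup_right u1, u2, u3⟩)
      have h2 : (L1 ⊔ L2) ⊓ Pn hρ n = L1 := by
        rw [sup_inf_assoc_of_le L2 (hL1K.trans inf_le_right)]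
        exact sup_eq_left.2 hL1X
      rw [h2] at h1
      exact hL1R.trans h1

/-- finite-dimensional subspaces are in a hull -/
lemma finite_le_Pn (hρ : IsRational ρ) (X : Submodule k V) (hfin : Module.Finite k X) :
    ∃ n, X ≤ Pn hρ n := by
  obtain ⟨s, hs⟩ := (Submodule.fg_iff_finiteDimensional X).2 hfin
  have h1 : ∀ v : V, ∃ n, v ∈ Pn hρ n := exists_Pn hρ
  choose N hN using h1
  refine ⟨s.sup N, ?_⟩
  rw [← hs, Submodule.span_le]
  intro v hv
  exact Pn_mono hρ (Finset.le_sup (f := N) hv) (hN v)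

lemma GStep.comap {A : Submodule k V} (hA : Stable ρ A) {X Y : Submodule k (V ⧸ A)}
    (h : GStep (quo ρ hA) X Y) : GStep ρ (X.comap A.mkQ) (Y.comap A.mkQ) := by
  obtain ⟨hX, hY, n, hXY, f, hf1, hf2, hf3⟩ := h
  refine ⟨fun g v hv => hX g _ hv, fun g v hv => hY g _ hv, n, Submodule.comap_mono hXY, ?_⟩
  let q : (Y.comap A.mkQ) →ₗ[k] Y := A.mkQ.restrict (fun x hx => hx)
  have hq : ∀ x, ((q x : Y) : V ⧸ A) = A.mkQ x := fun _ => rfl
  refine ⟨f ∘ₗ q, ?_, ?_, ?_⟩
  · apply hf1.comp
    intro y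
    obtain ⟨x, hx⟩ := A.mkQ_surjective y
    refine ⟨⟨x, ?_⟩, ?_⟩
    · change A.mkQ x ∈ Y
      rw [hx]; exact y.2
    · apply Subtype.ext
      rw [hq]
      exact hx
  · intro x
    rw [LinearMap.comp_apply, hf2, hq]
    rfl
  · intro g x y hy
    rw [LinearMap.comp_apply, LinearMap.comp_apply]
    apply hf3
    rw [hq, hq, hy]
    rfl

lemma reach_between (hρ : IsRational ρ) {A B : Submodule k V} (hA : Stable ρ A) (hB : Stable ρ B)
    (hAB : A ≤ B) (hfin : Module.Finite k B) (gA : GoodIn hρ A) (gB : GoodIn hρ B) :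
    Reach ρ A B := by
  have hq := isRational_quo hρ hA
  have hBs : Stable (quo ρ hA) (B.map A.mkQ) := hB.map (quo_isEquiv hA)
  have hBf : Module.Finite k (B.map A.mkQ) := inferInstance
  have hBg : GoodIn hq (B.map A.mkQ) := by
    apply GoodIn.quot hρ hq (quo_isEquiv hA) hB _ gB
    rw [Submodule.ker_mkQ, inf_eq_right.2 hAB]
    exact gA
  obtain ⟨n, hn⟩ := finite_le_Pn hq (B.map A.mkQ) hBf
  obtain ⟨L, hL1, hL2, hL3, hL4, hL5⟩ := absorb hq hBs hBg n (B.map A.mkQ) hBs hBf
    (le_inf le_rfl hn)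
  have hLe : L = B.map A.mkQ := le_antisymm (hL4.trans inf_le_left) hL3
  rw [hLe] at hL5
  have h1 : Reach ρ (Submodule.comap A.mkQ ⊥) ((B.map A.mkQ).comap A.mkQ) :=
    Relation.ReflTransGen.lift (r := GStep (quo ρ hA)) (p := GStep ρ) (Submodule.comap A.mkQ)
      (fun X Y h => h.comap hA) _ _ hL5
  rw [Submodule.comap_bot, Submodule.ker_mkQ, Submodule.comap_map_mkQ, sup_eq_right.2 hAB] at h1
  exact h1

/-- flattening of a sequence of finite chains -/
lemma flatten {α : Type*} (r : α → α → Prop) (L : ℕ → α)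
    (h : ∀ i, Relation.ReflTransGen r (L i) (L (i + 1))) :
    ∃ N : ℕ → α, N 0 = L 0 ∧ (∀ i, N i = N (i + 1) ∨ r (N i) (N (i + 1))) ∧
      (∀ i, ∃ j, N j = L i) ∧ ∀ j, ∃ i, Relation.ReflTransGen r (N j) (L i) := by
  have h1 : ∀ a b, Relation.ReflTransGen r a b → ∃ (n : ℕ) (f : ℕ → α), f 0 = a ∧ f n = b ∧
      ∀ j < n, r (f j) (f (j + 1)) := by
    intro a b hab
    induction hab with
    | refl => exact ⟨0, fun _ => a, rfl, rfl, fun j hj => absurd hj (Nat.not_lt_zero _)⟩
    | @tail b c hab hbc ih =>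
      obtain ⟨n, f, f0, fn, hf⟩ := ih
      refine ⟨n + 1, fun j => if j ≤ n then f j else c, ?_, ?_, ?_⟩
      · beta_reduce; rw [if_pos (Nat.zero_le _), f0]
      · beta_reduce; rw [if_neg (by omega)]
      · intro j hj
        beta_reduce
        rcases Nat.lt_or_ge j n with h | h
        · rw [if_pos (by omega), if_pos (by omega)]; exact hf j h
        · have : j = n := by omega
          subst this
          rw [if_pos le_rfl, if_neg (by omega), fn]; exact hbc
  choose n f f0 fn hf using fun i => h1 _ _ (h i)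
  -- the state
  let st : ℕ → ℕ × ℕ := fun m => Nat.rec (0, 0)
    (fun _ q => if q.2 < n q.1 then (q.1, q.2 + 1) else (q.1 + 1, 0)) m
  have st0 : st 0 = (0, 0) := rfl
  have st1 : ∀ m, st (m + 1) = if (st m).2 < n (st m).1 then ((st m).1, (st m).2 + 1)
    else ((st m).1 + 1, 0) := fun m => rfl
  have inv : ∀ m, (st m).2 ≤ n (st m).1 := by
    intro m
    induction m with
    | zero => rw [st0]; exact Nat.zero_le _
    | succ m ih =>
      rw [st1]
      split_ifs with hlt
      · exact hlt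
      · exact Nat.zero_le _
  have reachSt : ∀ i, ∃ m, st m = (i, 0) := by
    intro i
    induction i with
    | zero => exact ⟨0, st0⟩
    | succ i ih =>
      obtain ⟨m, hm⟩ := ih
      have : ∀ j ≤ n i, st (m + j) = (i, j) := by
        intro j
        induction j with
        | zero => intro _; exact hm
        | succ j ihj =>
          intro hj
          rw [← add_assoc, st1, ihj (by omega)]
          exact if_pos hj
      refine ⟨m + n i + 1, ?_⟩
      rw [st1, this (n i) le_rfl]
      exact if_neg (lt_irrefl _)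
  refine ⟨fun m => f (st m).1 (st m).2, ?_, ?_, ?_, ?_⟩
  · beta_reduce; rw [st0, f0]
  · intro m
    beta_reduce
    rw [st1]
    have hinv := inv m
    split_ifs with hlt
    · right; exact hf _ _ hlt
    · left
      have : (st m).2 = n (st m).1 := by omega
      rw [this, fn, f0]
  · intro i
    obtain ⟨m, hm⟩ := reachSt i
    refine ⟨m, ?_⟩
    beta_reduce
    rw [hm, f0]
  · intro m
    refine ⟨(st m).1 + 1, ?_⟩
    beta_reduce
    rw [← fn]
    have key : ∀ d, ∀ j, j + d = n (st m).1 →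
        Relation.ReflTransGen r (f (st m).1 j) (f (st m).1 (n (st m).1)) := by
      intro d
      induction d with
      | zero => intro j hj; rw [← hj, add_zero]
      | succ d ih =>
        intro j hj
        exact (ih (j + 1) (by omega)).head (hf _ _ (by omega))
    exact key (n (st m).1 - (st m).2) _ (by have := inv m; omega)

lemma Reach.le {A B : Submodule k V} (h : Reach ρ A B) : A ≤ B := by
  induction h with
  | refl => exact le_rfl
  | tail _ h ih =>
    obtain ⟨n, hn⟩ := h.2.2
    exact ih.trans hn.1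

/-- the hull criterion implies the existence of a good filtration -/
theorem HasGoodFiltration.of_good (hρ : IsRational ρ) {K : Submodule k V} (hK : Stable ρ K)
    (hG : GoodIn hρ K) (e : ℕ → V) (he : ∀ i, e i ∈ K) (hspan : K ≤ Submodule.span k (Set.range e)) :
    HasGoodFiltration ρ K := by
  -- one absorption step
  have step : ∀ (X : {X : Submodule k V // Stable ρ X ∧ Module.Finite k X ∧ X ≤ K ∧ Reach ρ ⊥ X})
      (v : K), ∃ Y : {X : Submodule k V // Stable ρ X ∧ Module.Finite k X ∧ X ≤ K ∧ Reach ρ ⊥ X},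
        X.1 ≤ Y.1 ∧ (v : V) ∈ Y.1 := by
    rintro ⟨X, h1, h2, h3, h4⟩ ⟨v, hv⟩
    have hf := hull_finite hρ v
    obtain ⟨n, hn⟩ := finite_le_Pn hρ (X ⊔ hull ρ v) inferInstance
    obtain ⟨L, l1, l2, l3, l4, l5⟩ := absorb hρ hK hG n (X ⊔ hull ρ v) (h1.sup (hull_stable ρ v))
      inferInstance (le_inf (sup_le h3 (hull_le hK hv)) hn)
    exact ⟨⟨L, l1, l2, l4.trans inf_le_left, l5⟩, le_sup_left.trans l3,
      l3 (Submodule.mem_sup_right (mem_hull ρ v))⟩
  choose nxt nx1 nx2 using step
  let Ls : ℕ → {X : Submodule k V // Stable ρ X ∧ Module.Finite k X ∧ X ≤ K ∧ Reach ρ ⊥ X} :=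
    fun m => Nat.rec ⟨⊥, Stable.bot, inferInstance, bot_le, Relation.ReflTransGen.refl⟩
      (fun i X => nxt X ⟨e i, he i⟩) m
  have Ls0 : (Ls 0).1 = ⊥ := rfl
  have Ls1 : ∀ m, Ls (m + 1) = nxt (Ls m) ⟨e m, he m⟩ := fun m => rfl
  have hle : ∀ m, (Ls m).1 ≤ (Ls (m + 1)).1 := fun m => by rw [Ls1]; exact nx1 _ _
  have hmem : ∀ m, e m ∈ (Ls (m + 1)).1 := fun m => by rw [Ls1]; exact nx2 _ ⟨e m, he m⟩
  have hgood : ∀ m, GoodIn hρ (Ls m).1 := fun m => (Ls m).2.2.2.2.good hρ (GoodIn.bot hρ)
  have hreach : ∀ m, Reach ρ (Ls m).1 (Ls (m + 1)).1 := fun m =>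
    reach_between hρ (Ls m).2.1 (Ls (m + 1)).2.1 (hle m) (Ls (m + 1)).2.2.1 (hgood m)
      (hgood (m + 1))
  obtain ⟨N, n0, n1, n2, n3⟩ := flatten (GStep ρ) (fun m => (Ls m).1) hreach
  refine ⟨N, n0.trans Ls0, ?_, ?_, ?_⟩
  · intro i
    induction i with
    | zero => rw [n0]; exact (Ls 0).2.1
    | succ i ih =>
      rcases n1 i with h | h
      · rwa [← h]
      · exact h.2.1
  · intro i
    rcases n1 i with h | h
    · exact Or.inl h
    · exact Or.inr h.2.2
  · apply le_antisymm
    · apply iSup_le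
      intro j
      obtain ⟨i, hi⟩ := n3 j
      exact (Reach.le hi).trans (Ls i).2.2.2.1
    · refine hspan.trans ?_
      rw [Submodule.span_le]
      rintro _ ⟨i, rfl⟩
      obtain ⟨j, hj⟩ := n2 (i + 1)
      apply Submodule.mem_iSup_of_mem j
      rw [hj]
      exact hmem i

end

end Pool.Agent.Helper66.TR
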