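import Pool.Agent.Helper66.TR.Defs

/-!
# Polynomial and Laurent polynomial functions with values in a vector space
-/

set_option autoImplicit false

namespace Pool.Agent.Helper66.TR

open Finset

variable {k : Type*} [Field k] {V W : Type*} [AddCommGroup V] [Module k V] [AddCommGroup W]
  [Module k W]

/-- `x` is the sequence of coefficients of the polynomial function `φ` -/
def PolyCo (φ : k → V) (x : ℕ → V) : Prop :=
  ∃ d : ℕ, (∀ j, d ≤ j → x j = 0) ∧ ∀ a, φ a = ∑ j ∈ range d, a ^ j • x j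

/-- `x` is the family of coefficients of the Laurent polynomial function `φ` -/
def LauCo (φ : kˣ → V) (x : ℤ → V) : Prop :=
  ∃ d : ℕ, (∀ n : ℤ, (d : ℤ) < |n| → x n = 0) ∧
    ∀ z, φ z = ∑ n ∈ Icc (-(d : ℤ)) d, ((z ^ n : kˣ) : k) • x n

lemma PolyCo.extend {φ : k → V} {x : ℕ → V} (h : PolyCo φ x) : ∃ d : ℕ, ∀ e, d ≤ e →
    (∀ j, e ≤ j → x j = 0) ∧ ∀ a, φ a = ∑ j ∈ range e, a ^ j • x j := by
  obtain ⟨d, h1, h2⟩ := h
  refine ⟨d, fun e he => ⟨fun j hj => h1 j (he.trans hj), fun a => ?_⟩⟩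
  rw [h2 a]
  apply sum_subset (range_subset_range.2 he)
  intro j _ hj
  rw [h1 j (by simpa using hj), smul_zero]

lemma LauCo.extend {φ : kˣ → V} {x : ℤ → V} (h : LauCo φ x) : ∃ d : ℕ, ∀ e : ℕ, d ≤ e →
    (∀ n : ℤ, (e : ℤ) < |n| → x n = 0) ∧
      ∀ z, φ z = ∑ n ∈ Icc (-(e : ℤ)) e, ((z ^ n : kˣ) : k) • x n := by
  obtain ⟨d, h1, h2⟩ := h
  refine ⟨d, fun e he => ?_⟩
  have he' : (d : ℤ) ≤ e := by exact_mod_cast he
  refine ⟨fun n hn => h1 n (by omega), fun z => ?_⟩
  rw [h2 z]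
  apply sum_subset (Icc_subset_Icc (by omega) he')
  intro n _ hn
  rw [h1 n, smul_zero]
  rw [mem_Icc] at hn
  by_contra hc
  exact hn (abs_le.1 (not_lt.1 hc))

lemma PolyCo.congr {φ ψ : k → V} {x : ℕ → V} (h : PolyCo φ x) (e : ∀ a, ψ a = φ a) :
    PolyCo ψ x := by
  obtain ⟨d, h1, h2⟩ := h
  exact ⟨d, h1, fun a => by rw [e, h2]⟩

lemma PolyCo.zero : PolyCo (fun _ : k => (0 : V)) (fun _ => 0) :=
  ⟨0, fun _ _ => rfl, fun a => by simp⟩

lemma PolyCo.add {φ ψ : k → V} {x y : ℕ → V} (h : PolyCo φ x) (h' : PolyCo ψ y) :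
    PolyCo (fun a => φ a + ψ a) (fun j => x j + y j) := by
  obtain ⟨d, h1⟩ := h.extend
  obtain ⟨d', h2⟩ := h'.extend
  obtain ⟨a1, a2⟩ := h1 (max d d') (le_max_left _ _)
  obtain ⟨b1, b2⟩ := h2 (max d d') (le_max_right _ _)
  refine ⟨max d d', fun j hj => by beta_reduce; rw [a1 j hj, b1 j hj, add_zero], fun a => ?_⟩
  beta_reduce
  rw [a2, b2, ← sum_add_distrib]
  simp only [smul_add]

lemma PolyCo.map {φ : k → V} {x : ℕ → V} (h : PolyCo φ x) (f : V →ₗ[k] W) :
    PolyCo (fun a => f (φ a)) (fun j => f (x j)) := by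
  obtain ⟨d, h1, h2⟩ := h
  refine ⟨d, fun j hj => by beta_reduce; rw [h1 j hj, map_zero], fun a => ?_⟩
  beta_reduce
  rw [h2, map_sum]
  simp only [map_smul]

lemma PolyCo.const (v : V) : PolyCo (fun _ : k => v) (fun j => if j = 0 then v else 0) := by
  refine ⟨1, fun j hj => if_neg (by omega), fun a => ?_⟩
  simp

/-- multiplication by `a` -/
lemma PolyCo.shift {φ : k → V} {x : ℕ → V} (h : PolyCo φ x) :
    PolyCo (fun a => a • φ a) (fun j => if j = 0 then 0 else x (j - 1)) := by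
  obtain ⟨d, h1, h2⟩ := h
  refine ⟨d + 1, fun j hj => ?_, fun a => ?_⟩
  · beta_reduce
    rw [if_neg (by omega), h1 _ (by omega)]
  · beta_reduce
    rw [h2, sum_range_succ', smul_sum]
    simp only [if_true, smul_zero, add_zero]
    apply sum_congr rfl
    intro j _
    rw [if_neg (by omega), smul_smul, pow_succ', Nat.add_sub_cancel]

/-- existence of coefficients -/
def IsPoly (φ : k → V) : Prop := ∃ x, PolyCo φ x

lemma IsPoly.congr {φ ψ : k → V} (h : IsPoly φ) (e : ∀ a, ψ a = φ a) : IsPoly ψ := by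
  obtain ⟨x, hx⟩ := h
  exact ⟨x, hx.congr e⟩

lemma IsPoly.add {φ ψ : k → V} (h : IsPoly φ) (h' : IsPoly ψ) : IsPoly (fun a => φ a + ψ a) := by
  obtain ⟨x, hx⟩ := h
  obtain ⟨y, hy⟩ := h'
  exact ⟨_, hx.add hy⟩

lemma IsPoly.const (v : V) : IsPoly (fun _ : k => v) := ⟨_, PolyCo.const v⟩

lemma IsPoly.sum {ι : Type*} (s : Finset ι) {φ : ι → k → V} (h : ∀ i ∈ s, IsPoly (φ i)) :
    IsPoly (fun a => ∑ i ∈ s, φ i a) := by
  classical
  induction s using Finset.induction_on with
  | empty => exact (IsPoly.const (0 : V)).congr (fun a => by simp)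
  | insert i s hi ih =>
    refine ((h i (mem_insert_self _ _)).add
      (ih (fun j hj => h j (mem_insert_of_mem hj)))).congr (fun a => ?_)
    rw [sum_insert hi]

lemma IsPoly.map {φ : k → V} (h : IsPoly φ) (f : V →ₗ[k] W) : IsPoly (fun a => f (φ a)) := by
  obtain ⟨x, hx⟩ := h
  exact ⟨_, hx.map f⟩

lemma IsPoly.shift {φ : k → V} (h : IsPoly φ) : IsPoly (fun a => a • φ a) := by
  obtain ⟨x, hx⟩ := h
  exact ⟨_, hx.shift⟩

lemma IsPoly.csmul {φ : k → V} (h : IsPoly φ) (c : k) : IsPoly (fun a => c • φ a) :=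
  h.map (c • LinearMap.id)

/-- multiplication by a polynomial -/
lemma IsPoly.psmul {φ : k → V} (h : IsPoly φ) (P : Polynomial k) :
    IsPoly (fun a => P.eval a • φ a) := by
  induction P using Polynomial.induction_on with
  | C c => exact (h.csmul c).congr (fun a => by simp)
  | add p q hp hq => exact (hp.add hq).congr (fun a => by rw [Polynomial.eval_add, add_smul])
  | monomial n c ih =>
    exact ih.shift.congr (fun a => by
      rw [smul_smul]
      congr 1
      simp only [Polynomial.eval_mul, Polynomial.eval_C, Polynomial.eval_pow, Polynomial.eval_X]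
      ring)

lemma PolyCo.isPoly {φ : k → V} {x : ℕ → V} (h : PolyCo φ x) : IsPoly φ := ⟨x, h⟩

section infinite

variable [Infinite k]

lemma PolyCo.eq_zero {x : ℕ → V} (h : PolyCo (fun _ : k => (0 : V)) x) (j : ℕ) : x j = 0 := by
  obtain ⟨d, h1, h2⟩ := h
  by_cases hj : d ≤ j
  · exact h1 j hj
  rw [← Module.forall_dual_apply_eq_zero_iff k]
  intro f
  have hP : (∑ i ∈ range d, Polynomial.monomial i (f (x i)) : Polynomial k) = 0 := by
    apply Polynomial.funext
    intro a
    have h3 := congrArg f (h2 a)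
    rw [map_zero, map_sum] at h3
    rw [Polynomial.eval_finsetSum, Polynomial.eval_zero, h3]
    apply sum_congr rfl
    intro i _
    rw [Polynomial.eval_monomial, map_smul, smul_eq_mul, mul_comm]
  have h4 := congrArg (fun P => Polynomial.coeff P j) hP
  simp only [Polynomial.finsetSum_coeff, Polynomial.coeff_monomial, Polynomial.coeff_zero] at h4
  rw [sum_ite_eq' (range d) j, if_pos (mem_range.2 (not_le.1 hj))] at h4
  exact h4

lemma PolyCo.unique {φ : k → V} {x y : ℕ → V} (h : PolyCo φ x) (h' : PolyCo φ y) : x = y := by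
  funext j
  have h1 := h.add (h'.map (-LinearMap.id))
  have h2 : PolyCo (fun _ : k => (0 : V)) (fun j => x j + (-LinearMap.id : V →ₗ[k] V) (y j)) :=
    h1.congr (fun a => by simp)
  have h3 := h2.eq_zero j
  simpa [← sub_eq_add_neg, sub_eq_zero] using h3

/-- a polynomial function which vanishes off one point is zero -/
lemma IsPoly.eq_zero {φ : k → V} (h : IsPoly φ) (c : k) (h0 : ∀ a, a ≠ c → φ a = 0) (a : k) :
    φ a = 0 := by
  rw [← Module.forall_dual_apply_eq_zero_iff k]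
  intro f
  obtain ⟨x, d, h1, h2⟩ := h.map f
  set P : Polynomial k := ∑ i ∈ range d, Polynomial.monomial i (x i) with hPdef
  have hP : ∀ a, P.eval a = f (φ a) := by
    intro a
    have h3 : f (φ a) = ∑ j ∈ range d, a ^ j • x j := h2 a
    rw [h3, hPdef, Polynomial.eval_finsetSum]
    apply sum_congr rfl
    intro i _
    rw [Polynomial.eval_monomial, smul_eq_mul, mul_comm]
  have h4 : (Polynomial.X - Polynomial.C c) * P = 0 := by
    apply Polynomial.funext
    intro b
    rw [Polynomial.eval_mul, hP]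
    by_cases hb : b = c
    · simp [hb]
    · rw [h0 b hb]; simp
  have h5 : P = 0 := by
    rcases mul_eq_zero.1 h4 with h | h
    · exact absurd h (Polynomial.X_sub_C_ne_zero c)
    · exact h
  rw [← hP, h5, Polynomial.eval_zero]

end infinite

/-! ### Laurent -/

lemma LauCo.congr {φ ψ : kˣ → V} {x : ℤ → V} (h : LauCo φ x) (e : ∀ a, ψ a = φ a) :
    LauCo ψ x := by
  obtain ⟨d, h1, h2⟩ := h
  exact ⟨d, h1, fun a => by rw [e, h2]⟩

lemma LauCo.add {φ ψ : kˣ → V} {x y : ℤ → V} (h : LauCo φ x) (h' : LauCo ψ y) :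
    LauCo (fun a => φ a + ψ a) (fun j => x j + y j) := by
  obtain ⟨d, h1⟩ := h.extend
  obtain ⟨d', h2⟩ := h'.extend
  obtain ⟨a1, a2⟩ := h1 (max d d') (le_max_left _ _)
  obtain ⟨b1, b2⟩ := h2 (max d d') (le_max_right _ _)
  refine ⟨max d d', fun j hj => by beta_reduce; rw [a1 j hj, b1 j hj, add_zero], fun a => ?_⟩
  beta_reduce
  rw [a2, b2, ← sum_add_distrib]
  simp only [smul_add]

lemma LauCo.map {φ : kˣ → V} {x : ℤ → V} (h : LauCo φ x) (f : V →ₗ[k] W) :
    LauCo (fun a => f (φ a)) (fun j => f (x j)) := by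
  obtain ⟨d, h1, h2⟩ := h
  refine ⟨d, fun j hj => by beta_reduce; rw [h1 j hj, map_zero], fun a => ?_⟩
  beta_reduce
  rw [h2, map_sum]
  simp only [map_smul]

/-- a single term -/
lemma LauCo.single (m : ℤ) (v : V) : LauCo (fun z : kˣ => ((z ^ m : kˣ) : k) • v)
    (fun j => if j = m then v else 0) := by
  refine ⟨m.natAbs, fun j hj => if_neg ?_, fun z => ?_⟩
  · rintro rfl
    rw [Int.natCast_natAbs] at hj
    exact lt_irrefl _ hj
  · rw [sum_eq_single m]
    · simp
    · intro b _ hb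
      beta_reduce
      rw [if_neg hb, smul_zero]
    · intro hm
      exfalso
      apply hm
      rw [mem_Icc, Int.natCast_natAbs]
      exact ⟨neg_abs_le m, le_abs_self m⟩

/-- multiplication by a power of `z` -/
lemma LauCo.shift {φ : kˣ → V} {x : ℤ → V} (h : LauCo φ x) (m : ℤ) :
    LauCo (fun z => ((z ^ m : kˣ) : k) • φ z) (fun j => x (j - m)) := by
  obtain ⟨d, h0⟩ := h.extend
  obtain ⟨h1, -⟩ := h0 d le_rfl
  obtain ⟨-, h3⟩ := h0 (d + 2 * m.natAbs) (by omega)
  have hm : (m.natAbs : ℤ) = |m| := Int.natCast_natAbs m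
  have habs1 := neg_abs_le m
  have habs2 := le_abs_self m
  refine ⟨d + m.natAbs, fun j hj => ?_, fun z => ?_⟩
  · beta_reduce
    apply h1
    push_cast at hj
    have := abs_sub_abs_le_abs_sub j m
    omega
  · beta_reduce
    rw [h3, smul_sum]
    have hs : ∑ n ∈ Icc (-((d + m.natAbs : ℕ) : ℤ)) ((d + m.natAbs : ℕ) : ℤ),
        ((z ^ n : kˣ) : k) • x (n - m) =
        ∑ n ∈ Icc (-((d + 2 * m.natAbs : ℕ) : ℤ) + m) (((d + 2 * m.natAbs : ℕ) : ℤ) + m),
          ((z ^ n : kˣ) : k) • x (n - m) := by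
      apply sum_subset
      · apply Icc_subset_Icc <;> push_cast <;> omega
      · intro n _ hn
        rw [h1, smul_zero]
        rw [mem_Icc] at hn
        push_cast at hn
        by_contra hc
        have h6 := abs_le.1 (not_lt.1 hc)
        apply hn
        constructor <;> linarith [h6.1, h6.2]
    rw [hs, ← Finset.map_add_right_Icc, sum_map]
    apply sum_congr rfl
    intro n _
    simp only [addRightEmbedding_apply, add_sub_cancel_right]
    rw [smul_smul, zpow_add, mul_comm (z ^ n), Units.val_mul]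

/-- existence of coefficients -/
def IsLau (φ : kˣ → V) : Prop := ∃ x, LauCo φ x

lemma IsLau.congr {φ ψ : kˣ → V} (h : IsLau φ) (e : ∀ a, ψ a = φ a) : IsLau ψ := by
  obtain ⟨x, hx⟩ := h
  exact ⟨x, hx.congr e⟩

lemma IsLau.add {φ ψ : kˣ → V} (h : IsLau φ) (h' : IsLau ψ) : IsLau (fun a => φ a + ψ a) := by
  obtain ⟨x, hx⟩ := h
  obtain ⟨y, hy⟩ := h'
  exact ⟨_, hx.add hy⟩

lemma IsLau.const (v : V) : IsLau (fun _ : kˣ => v) :=
  IsLau.congr ⟨_, LauCo.single 0 v⟩ (fun z => by simp)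

lemma IsLau.map {φ : kˣ → V} (h : IsLau φ) (f : V →ₗ[k] W) : IsLau (fun a => f (φ a)) := by
  obtain ⟨x, hx⟩ := h
  exact ⟨_, hx.map f⟩

lemma IsLau.shift {φ : kˣ → V} (h : IsLau φ) (m : ℤ) :
    IsLau (fun z => ((z ^ m : kˣ) : k) • φ z) := by
  obtain ⟨x, hx⟩ := h
  exact ⟨_, hx.shift m⟩

lemma IsLau.sum {ι : Type*} (s : Finset ι) {φ : ι → kˣ → V} (h : ∀ i ∈ s, IsLau (φ i)) :
    IsLau (fun a => ∑ i ∈ s, φ i a) := by
  classical
  induction s using Finset.induction_on with
  | empty => exact (IsLau.const (0 : V)).congr (fun a => by simp)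
  | insert i s hi ih =>
    refine ((h i (mem_insert_self _ _)).add
      (ih (fun j hj => h j (mem_insert_of_mem hj)))).congr (fun a => ?_)
    rw [sum_insert hi]

section infinite

variable [Infinite k]

lemma LauCo.eq_zero {x : ℤ → V} (h : LauCo (fun _ : kˣ => (0 : V)) x) (j : ℤ) : x j = 0 := by
  obtain ⟨d, h1, h2⟩ := h
  by_cases hj : (d : ℤ) < |j|
  · exact h1 j hj
  have hj' := abs_le.1 (not_lt.1 hj)
  -- multiply by `z ^ d`
  set y : ℕ → V := fun i => if i ≤ 2 * d then x ((i : ℤ) - d) else 0 with hy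
  have key : ∀ a : k, a ≠ 0 → ∑ i ∈ range (2 * d + 1), a ^ i • y i = 0 := by
    intro a ha
    have h4 := h2 (Units.mk0 a ha)
    have h5 : (a ^ d) • ∑ n ∈ Icc (-(d : ℤ)) d, (((Units.mk0 a ha) ^ n : kˣ) : k) • x n = 0 := by
      rw [← h4, smul_zero]
    refine Eq.trans ?_ h5
    rw [smul_sum]
    refine sum_bij' (i := fun (i : ℕ) _ => (i : ℤ) - d) (j := fun (n : ℤ) _ => (n + d).toNat)
      ?_ ?_ ?_ ?_ ?_
    · intro i hi
      rw [mem_range] at hi
      rw [mem_Icc]
      constructor <;> omega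
    · intro n hn
      rw [mem_Icc] at hn
      rw [mem_range]
      omega
    · intro i hi
      simp
    · intro n hn
      rw [mem_Icc] at hn
      beta_reduce
      omega
    · intro i hi
      rw [mem_range] at hi
      simp only [hy]
      rw [if_pos (by omega), smul_smul]
      congr 1
      rw [Units.val_zpow_eq_zpow_val, Units.val_mk0, zpow_sub₀ ha, zpow_natCast, zpow_natCast]
      field_simp
  have hp : IsPoly (fun a : k => ∑ i ∈ range (2 * d + 1), a ^ i • y i) := by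
    apply IsPoly.sum
    intro i _
    exact ((IsPoly.const (y i)).psmul (Polynomial.X ^ i)).congr (fun a => by simp)
  have h3 : PolyCo (fun _ : k => (0 : V)) y := by
    refine ⟨2 * d + 1, fun i hi => if_neg (by omega), fun a => ?_⟩
    exact (hp.eq_zero 0 key a).symm
  have h6 := h3.eq_zero (j + d).toNat
  simp only [hy] at h6
  rw [if_pos (by omega)] at h6
  rw [← h6]
  congr 1
  omega

lemma LauCo.unique {φ : kˣ → V} {x y : ℤ → V} (h : LauCo φ x) (h' : LauCo φ y) : x = y := by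
  funext j
  have h1 := h.add (h'.map (-LinearMap.id))
  have h2 : LauCo (fun _ : kˣ => (0 : V)) (fun j => x j + (-LinearMap.id : V →ₗ[k] V) (y j)) :=
    h1.congr (fun a => by simp)
  have h3 := h2.eq_zero j
  simpa [← sub_eq_add_neg, sub_eq_zero] using h3

end infinite

end Pool.Agent.Helper66.TR
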