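import Mathlib

/-!
# Rational representations of `SL₂(k)` and good filtrations: definitions
-/

set_option autoImplicit false

namespace Pool.Agent.Helper66.TR

/-- `SL₂(k)` -/
abbrev G (k : Type*) [Field k] := Matrix.SpecialLinearGroup (Fin 2) k

section

variable {k : Type*} [Field k] {V : Type*} [AddCommGroup V] [Module k V]

/-- A representation of `SL₂(k)` is rational: every orbit map is given by polynomials in the
matrix entries. -/
def IsRational (ρ : Representation k (G k) V) : Prop :=
  ∀ v : V, ∃ (m : ℕ) (f : Fin m → MvPolynomial (Fin 2 × Fin 2) k) (w : Fin m → V),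
    ∀ g : G k, ρ g v = ∑ i, (MvPolynomial.eval (fun p => g.1 p.1 p.2) (f i)) • w i

/-- A subspace is stable under the group. -/
def Stable (ρ : Representation k (G k) V) (W : Submodule k V) : Prop :=
  ∀ g : G k, ∀ v ∈ W, ρ g v ∈ W

/-- diagonal matrices -/
def tor (z : kˣ) : G k := ⟨!![(z : k), 0; 0, ((z⁻¹ : kˣ) : k)], by simp⟩

/-- upper unipotent matrices -/
def up (a : k) : G k := ⟨!![1, a; 0, 1], by simp⟩

/-- lower unipotent matrices -/
def lo (a : k) : G k := ⟨!![1, 0; a, 1], by simp⟩

/-- weight vectors -/
def IsWt (ρ : Representation k (G k) V) (n : ℤ) (v : V) : Prop :=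
  ∀ z : kˣ, ρ (tor z) v = (((z ^ n : kˣ)) : k) • v

/-- invariant under the upper unipotent matrices -/
def IsU (ρ : Representation k (G k) V) (v : V) : Prop := ∀ a : k, ρ (up a) v = v

/-- action by algebra automorphisms -/
def IsMul {A : Type*} [CommRing A] [Algebra k A] (ρ : Representation k (G k) A) : Prop :=
  ∀ g a b, ρ g (a * b) = ρ g a * ρ g b

/-- `(G, S)`-modules -/
def IsEquivModule {S M : Type*} [CommRing S] [Algebra k S] [AddCommGroup M] [Module k M]
    [Module S M] (σ : Representation k (G k) S) (ρ : Representation k (G k) M) : Prop :=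
  ∀ g s m, ρ g (s • m) = σ g s • ρ g m

end

end Pool.Agent.Helper66.TR
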