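import Pool.Agent.Helper66.TR.Defs

/-!
# Induced modules, Weyl modules, filtrations: definitions
-/

set_option autoImplicit false

namespace Pool.Agent.Helper66.TR

lemma eval_aeval' {k : Type*} [Field k] {σ τ : Type*} (v : τ → k) (f : σ → MvPolynomial τ k)
    (P : MvPolynomial σ k) : MvPolynomial.eval v (MvPolynomial.aeval f P) =
      MvPolynomial.eval (fun i => MvPolynomial.eval v (f i)) P := by
  induction P using MvPolynomial.induction_on with
  | C a => simp
  | add p q hp hq => rw [map_add, map_add, hp, hq, map_add]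
  | mul_X p i hp => rw [map_mul, map_mul, hp, MvPolynomial.aeval_X, map_mul, MvPolynomial.eval_X]

section

variable (k : Type*) [Field k]

/-- The induced module `∇(n) = ind_B^G(n)`: regular functions `F` on `G = SL₂(k)` with
`F (g b) = λ(b)⁻¹ F g` for `b` in the group `B` of lower triangular matrices, where
`λ(b) = z ^ n` for `b` with diagonal entries `z, z⁻¹`. -/
def Ind (n : ℕ) : Submodule k (G k → k) where
  carrier := {F | (∃ P : MvPolynomial (Fin 2 × Fin 2) k,
      ∀ g : G k, F g = MvPolynomial.eval (fun p => g.1 p.1 p.2) P) ∧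
    ∀ (g : G k) (c : k) (z : kˣ), F (g * (lo c * tor z)) = ((z⁻¹ : kˣ) : k) ^ n * F g}
  add_mem' := by
    rintro F F' ⟨⟨P, hP⟩, h⟩ ⟨⟨P', hP'⟩, h'⟩
    refine ⟨⟨P + P', fun g => ?_⟩, fun g c z => ?_⟩
    · rw [Pi.add_apply, hP, hP', map_add]
    · rw [Pi.add_apply, Pi.add_apply, h, h', mul_add]
  zero_mem' := ⟨⟨0, fun g => by simp⟩, fun g c z => by simp⟩
  smul_mem' := by
    rintro a F ⟨⟨P, hP⟩, h⟩
    refine ⟨⟨MvPolynomial.C a * P, fun g => ?_⟩, fun g c z => ?_⟩
    · rw [Pi.smul_apply, hP, map_mul, MvPolynomial.eval_C, smul_eq_mul]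
    · rw [Pi.smul_apply, Pi.smul_apply, h, smul_eq_mul, smul_eq_mul]; ring

lemma Ind_translate {n : ℕ} {F : G k → k} (hF : F ∈ Ind k n) (h : G k) :
    (fun g => F (h * g)) ∈ Ind k n := by
  obtain ⟨⟨P, hP⟩, hc⟩ := hF
  refine ⟨⟨MvPolynomial.aeval (fun p : Fin 2 × Fin 2 => ∑ l : Fin 2,
    MvPolynomial.C (h.1 p.1 l) * MvPolynomial.X (l, p.2)) P, fun g => ?_⟩, fun g c z => ?_⟩
  · beta_reduce
    rw [hP, eval_aeval']
    congr 2
    funext p
    rw [map_sum]
    simp [Matrix.SpecialLinearGroup.coe_mul, Matrix.mul_apply]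
  · beta_reduce
    rw [← mul_assoc, hc]

/-- The action of the group on the induced module: `(h F) (g) = F (h⁻¹ g)`. -/
def indRep (n : ℕ) : Representation k (G k) (Ind k n) where
  toFun h :=
    { toFun := fun F => ⟨fun g => F.1 (h⁻¹ * g), Ind_translate k F.2 h⁻¹⟩
      map_add' := fun _ _ => rfl
      map_smul' := fun _ _ => rfl }
  map_one' := by
    apply LinearMap.ext
    intro F
    apply Subtype.ext
    funext g
    change F.1 (1⁻¹ * g) = F.1 g
    rw [inv_one, one_mul]
  map_mul' h h' := by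
    apply LinearMap.ext
    intro F
    apply Subtype.ext
    funext g
    change F.1 ((h * h')⁻¹ * g) = F.1 (h'⁻¹ * (h⁻¹ * g))
    rw [mul_inv_rev, mul_assoc]

end

section

variable {k : Type*} [Field k] {V E : Type*} [AddCommGroup V] [Module k V] [AddCommGroup E]
  [Module k E]

/-- `B / A` is isomorphic to the representation `τ`. -/
def IsLayer (τ : Representation k (G k) E) (ρ : Representation k (G k) V)
    (A B : Submodule k V) : Prop :=
  A ≤ B ∧ ∃ f : B →ₗ[k] E, Function.Surjective f ∧ (∀ x : B, f x = 0 ↔ (x : V) ∈ A) ∧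
    ∀ (g : G k) (x y : B), (y : V) = ρ g x → f y = τ g (f x)

/-- The subspace `X` has an exhaustive ascending filtration by stable subspaces whose
subquotients are induced modules. -/
def HasGoodFiltration (ρ : Representation k (G k) V) (X : Submodule k V) : Prop :=
  ∃ N : ℕ → Submodule k V, N 0 = ⊥ ∧ (∀ i, Stable ρ (N i)) ∧
    (∀ i, N i = N (i + 1) ∨ ∃ n, IsLayer (indRep k n) ρ (N i) (N (i + 1))) ∧ ⨆ i, N i = X

/-- The same for the Weyl modules, the duals of the induced modules. -/
def HasWeylFiltration (ρ : Representation k (G k) V) (X : Submodule k V) : Prop :=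
  ∃ N : ℕ → Submodule k V, N 0 = ⊥ ∧ (∀ i, Stable ρ (N i)) ∧
    (∀ i, N i = N (i + 1) ∨ ∃ n, IsLayer (indRep k n).dual ρ (N i) (N (i + 1))) ∧ ⨆ i, N i = X

/-- Tilting modules. -/
structure IsTilting (ρ : Representation k (G k) V) : Prop where
  finite : Module.Finite k V
  rational : IsRational ρ
  good : HasGoodFiltration ρ ⊤
  weyl : HasWeylFiltration ρ ⊤

end

end Pool.Agent.Helper66.TR
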