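import Pool.Agent.Helper66.TR.Tilt
import Pool.Agent.Helper18.TR.FgU
import Pool.Agent.Helper4.TR.WeylDual

/-!
# Tilting covers with good kernels
-/

set_option autoImplicit false
set_option linter.unusedSectionVars false

namespace Pool.Agent.Helper66.TR

open Finset TensorProduct

universe u v w

section count

variable {k : Type u} [Field k]

/-- countable spanning families -/
def CSpan (k : Type u) [Field k] (V : Type v) [AddCommGroup V] [Module k V] : Prop :=
  ∃ s : Set V, s.Countable ∧ Submodule.span k s = ⊤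

lemma CSpan.sub {V : Type v} [AddCommGroup V] [Module k V] (h : CSpan k V)
    (K : Submodule k V) : ∃ e : ℕ → V, (∀ i, e i ∈ K) ∧ K ≤ Submodule.span k (Set.range e) := by
  obtain ⟨s, hs, hs2⟩ := h
  have h1 : Module.rank k V ≤ Cardinal.aleph0 := by
    rw [← rank_top, ← hs2]
    exact (rank_span_le s).trans (Cardinal.le_aleph0_iff_set_countable.2 hs)
  have h2 : Module.rank k K ≤ Cardinal.aleph0 := (Submodule.rank_le K).trans h1
  let b := Module.Basis.ofVectorSpace k K
  have h3 : Countable (Module.Basis.ofVectorSpaceIndex k K) := by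
    rw [← Cardinal.mk_le_aleph0_iff, b.mk_eq_rank'']
    exact h2
  have h4 : (Set.range (fun i => ((b i : K) : V)) ∪ {0}).Countable :=
    (Set.countable_range _).union (Set.countable_singleton 0)
  obtain ⟨e, he⟩ := h4.exists_eq_range ⟨0, Or.inr rfl⟩
  refine ⟨e, fun i => ?_, ?_⟩
  · have : e i ∈ Set.range (fun i => ((b i : K) : V)) ∪ {0} := by rw [he]; exact ⟨i, rfl⟩
    rcases this with ⟨j, hj⟩ | h0
    · rw [← hj]; exact (b j).2
    · rw [h0]; exact K.zero_mem
  · intro x hx
    rw [← he]
    have h5 : (⟨x, hx⟩ : K) ∈ Submodule.span k (Set.range b) := by rw [b.span_eq]; trivial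
    have h6 : x ∈ (Submodule.span k (Set.range b)).map K.subtype := ⟨⟨x, hx⟩, h5, rfl⟩
    rw [Submodule.map_span] at h6
    apply Submodule.span_mono _ h6
    rintro _ ⟨_, ⟨j, rfl⟩, rfl⟩
    exact Or.inl ⟨j, rfl⟩

lemma CSpan.of_finite {V : Type v} [AddCommGroup V] [Module k V] [Module.Finite k V] :
    CSpan k V := by
  obtain ⟨s, hs⟩ := (Module.Finite.fg_top : (⊤ : Submodule k V).FG)
  exact ⟨s, s.countable_toSet, hs⟩

lemma CSpan.of_finiteType {S : Type v} [CommRing S] [Algebra k S] [Algebra.FiniteType k S] :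
    CSpan k S := by
  obtain ⟨n, f, hf⟩ := (Algebra.FiniteType.iff_quotient_mvPolynomial'' (R := k) (S := S)).1
    inferInstance
  refine ⟨Set.range (fun m : Fin n →₀ ℕ => f (MvPolynomial.monomial m 1)),
    Set.countable_range _, ?_⟩
  rw [eq_top_iff]
  intro x _
  obtain ⟨P, rfl⟩ := hf x
  rw [P.as_sum, map_sum]
  apply Submodule.sum_mem
  intro m _
  have e : MvPolynomial.monomial m (P.coeff m) = P.coeff m • MvPolynomial.monomial m (1 : k) := by
    rw [MvPolynomial.smul_monomial, smul_eq_mul, mul_one]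
  rw [e, map_smul]
  exact Submodule.smul_mem _ _ (Submodule.subset_span ⟨m, rfl⟩)

lemma CSpan.tensor {V : Type v} {W : Type w} [AddCommGroup V] [Module k V] [AddCommGroup W]
    [Module k W] (hV : CSpan k V) (hW : CSpan k W) : CSpan k (V ⊗[k] W) := by
  obtain ⟨s, hs, hs2⟩ := hV
  obtain ⟨t, ht, ht2⟩ := hW
  refine ⟨Set.image2 (fun a b => a ⊗ₜ[k] b) s t, hs.image2 ht _, ?_⟩
  have h1 := Submodule.map₂_span_span k (TensorProduct.mk k V W) s t
  rw [hs2, ht2, TensorProduct.map₂_mk_top_top_eq_top] at h1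
  exact h1.symm

end count

section main

variable {k : Type u} [Field k] [Infinite k]

lemma isTilting_of_nice {T : Rp k} (h : Nice k T) : IsTilting T.ρ := by
  have hf := h.finite
  refine ⟨hf, h.rational, ?_, ?_⟩
  · obtain ⟨e, he1, he2⟩ := (CSpan.of_finite (k := k) (V := T.V)).sub ⊤
    exact HasGoodFiltration.of_good h.rational Stable.top h.good e he1 he2
  · obtain ⟨hd, hg⟩ := h.dual
    obtain ⟨e, he1, he2⟩ := (CSpan.of_finite (k := k) (V := Module.Dual k T.V)).sub ⊤
    exact Pool.Agent.Helper4.TR.weyl_of_dual_good T.ρ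
      (HasGoodFiltration.of_good hd Stable.top hg e he1 he2)

theorem tilting_cover (p : ℕ) [Fact p.Prime] [CharP k p]
    {S : Type v} {M : Type w} [CommRing S] [Algebra k S] [Algebra.FiniteType k S]
    [AddCommGroup M] [Module k M] [Module S M] [IsScalarTower k S M] [Module.Finite S M]
    (σ : Representation k (G k) S) (ρ : Representation k (G k) M)
    (hmul : IsMul σ) (hσ : IsRational σ) (hρ : IsRational ρ) (hM : IsEquivModule σ ρ)
    (gS : HasGoodFiltration σ ⊤) (gM : HasGoodFiltration ρ ⊤) :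
    ∃ (T : Rp k) (φ : T.V ⊗[k] S →ₗ[k] M), IsTilting T.ρ ∧ Function.Surjective φ ∧
      (∀ t s s', φ (t ⊗ₜ (s' * s)) = s' • φ (t ⊗ₜ s)) ∧
      (∀ g x, φ (T.ρ.tprod σ g x) = ρ g (φ x)) ∧
      HasGoodFiltration (T.ρ.tprod σ) (LinearMap.ker φ) := by
  have hS := GoodIn.of_filtration hσ gS
  have hMg := GoodIn.of_filtration hρ gM
  obtain ⟨r, m, d, hm, hgen⟩ := Pool.Agent.Helper18.TR.fg_U p σ ρ hmul hσ hρ hM
  obtain ⟨t, ht⟩ := (Module.Finite.fg_top : (⊤ : Submodule S M).FG)
  obtain ⟨T, θ, hT, hθ, hhit, hcov⟩ := exists_cover hρ hMg univ m d (fun l _ => hm l) t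
  have hks : ∀ (c : k) (s : S) (x : M), s • (c • x) = c • (s • x) := by
    intro c s x
    rw [← algebraMap_smul S c x, ← algebraMap_smul S c (s • x), smul_smul, smul_smul, mul_comm]
  let φ : T.V ⊗[k] S →ₗ[k] M := TensorProduct.lift (LinearMap.mk₂ k (fun t s => s • θ t)
    (fun t t' s => by rw [map_add, smul_add])
    (fun c t s => by rw [map_smul, hks])
    (fun t s s' => by rw [add_smul])
    (fun c t s => by rw [smul_assoc]))
  have hφ : ∀ t s, φ (t ⊗ₜ s) = s • θ t := fun t s => rfl
  have hφS : ∀ (s' : S) (x : T.V ⊗[k] S),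
      φ (LinearMap.lTensor T.V (LinearMap.mulLeft k s') x) = s' • φ x := by
    intro s' x
    induction x using TensorProduct.induction_on with
    | zero => simp
    | add x y hx hy => rw [map_add, map_add, hx, hy, map_add, smul_add]
    | tmul t s => rw [LinearMap.lTensor_tmul, hφ, hφ, LinearMap.mulLeft_apply, mul_smul]
  have hequiv : IsEquiv (T.ρ.tprod σ) ρ φ := by
    intro g x
    induction x using TensorProduct.induction_on with
    | zero => simp
    | add x y hx hy => rw [map_add, map_add, hx, hy, map_add, map_add]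
    | tmul t s =>
      rw [Representation.tprod_apply, TensorProduct.map_tmul, hφ, hφ, hθ, hM]
  have hsurj : Function.Surjective φ := by
    intro x
    have hx : x ∈ Submodule.span S (t : Set M) := by rw [ht]; trivial
    induction hx using Submodule.span_induction with
    | mem x hx =>
      obtain ⟨y, hy⟩ := hcov x hx
      exact ⟨y ⊗ₜ 1, by rw [hφ, one_smul, hy]⟩
    | zero => exact ⟨0, map_zero _⟩
    | add x y _ _ hx hy =>
      obtain ⟨a, rfl⟩ := hx
      obtain ⟨b, rfl⟩ := hy
      exact ⟨a + b, map_add _ _ _⟩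
    | smul s x _ hx =>
      obtain ⟨a, rfl⟩ := hx
      exact ⟨_, hφS s a⟩
  obtain ⟨hTS, gTS⟩ := hT.tensor hσ hS
  have hker : GoodIn hTS (LinearMap.ker φ) := by
    have h := GoodIn.ker hTS hρ hequiv Stable.top gTS (by
      intro n c _ hcn hcw
      obtain ⟨b, hb, hcb⟩ := hgen n c (Pn_isU hρ hcn hcw) hcw
      choose τ hτU hτw hτ using fun l => hhit l (mem_univ l)
      have hU : IsU (T.ρ.tprod σ) (∑ l, τ l ⊗ₜ[k] b l) := by
        intro a
        rw [map_sum]
        apply sum_congr rfl
        intro l _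
        rw [Representation.tprod_apply, TensorProduct.map_tmul, hτU l a, (hb l).1 a]
      have hW : IsWt (T.ρ.tprod σ) n (∑ l, τ l ⊗ₜ[k] b l) := by
        intro z
        rw [map_sum, smul_sum]
        apply sum_congr rfl
        intro l _
        rw [Representation.tprod_apply, TensorProduct.map_tmul, hτw l z, (hb l).2 z,
          TensorProduct.smul_tmul_smul, ← Units.val_mul, ← zpow_add, add_sub_cancel]
      refine ⟨∑ l, τ l ⊗ₜ[k] b l, trivial, isU_mem hTS hU hW, hW, ?_⟩
      rw [map_sum, hcb]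
      apply sum_congr rfl
      intro l _
      rw [hφ, hτ])
    rwa [top_inf_eq] at h
  have hTf := hT.finite
  obtain ⟨e, he1, he2⟩ := ((CSpan.of_finite (k := k) (V := T.V)).tensor
    (CSpan.of_finiteType (k := k) (S := S))).sub (LinearMap.ker φ)
  refine ⟨T, φ, isTilting_of_nice hT, hsurj, ?_, hequiv,
    HasGoodFiltration.of_good hTS (Stable.ker hequiv) hker e he1 he2⟩
  intro t s s'
  rw [hφ, hφ, mul_smul]

end main

end Pool.Agent.Helper66.TR
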