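import Pool.Agent.Helper66.TR.Hull

/-!
# The hull criterion for good filtrations
-/

set_option autoImplicit false
set_option linter.unusedSectionVars false

namespace Pool.Agent.Helper66.TR

open Finset

variable {k : Type*} [Field k] [Infinite k] {V W : Type*} [AddCommGroup V] [Module k V]
  [AddCommGroup W] [Module k W] {ρ : Representation k (G k) V} {σ : Representation k (G k) W}

/-- the hull criterion -/
def GoodIn (hρ : IsRational ρ) (X : Submodule k V) : Prop :=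
  ∀ n : ℕ, ∀ v ∈ X, v ∈ Pn hρ (n + 1) → IsWt ρ n v → ∀ i ≤ n,
    ∃ w ∈ X, w ∈ Pn hρ (n + 1) ∧ IsWt ρ (n - 2 * i) w ∧ Eo hρ i w = v

lemma GoodIn.bot (hρ : IsRational ρ) : GoodIn hρ ⊥ := by
  intro n v hv _ _ i _
  rw [Submodule.mem_bot] at hv
  subst hv
  exact ⟨0, Submodule.zero_mem _, Submodule.zero_mem _, isWt_zero _, map_zero _⟩

lemma Stable.map {φ : V →ₗ[k] W} (hφ : IsEquiv ρ σ φ) {X : Submodule k V} (hX : Stable ρ X) :
    Stable σ (X.map φ) := by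
  rintro g _ ⟨v, hv, rfl⟩
  exact ⟨ρ g v, hX g v hv, hφ g v⟩

lemma Stable.ker {φ : V →ₗ[k] W} (hφ : IsEquiv ρ σ φ) : Stable ρ (LinearMap.ker φ) := by
  intro g v hv
  rw [LinearMap.mem_ker] at hv ⊢
  rw [hφ, hv, map_zero]

lemma Stable.inf {X Y : Submodule k V} (hX : Stable ρ X) (hY : Stable ρ Y) :
    Stable ρ (X ⊓ Y) := fun g v hv => ⟨hX g v hv.1, hY g v hv.2⟩

lemma Stable.sup {X Y : Submodule k V} (hX : Stable ρ X) (hY : Stable ρ Y) :
    Stable ρ (X ⊔ Y) := by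
  intro g v hv
  obtain ⟨x, hx, y, hy, rfl⟩ := Submodule.mem_sup.1 hv
  rw [map_add]
  exact Submodule.add_mem_sup (hX g x hx) (hY g y hy)

lemma Stable.top : Stable ρ (⊤ : Submodule k V) := fun _ _ _ => Submodule.mem_top

lemma Stable.bot : Stable ρ (⊥ : Submodule k V) := by
  intro g v hv
  rw [Submodule.mem_bot] at hv ⊢
  rw [hv, map_zero]

/-- lifting of vectors in hulls along a map with good kernel -/
lemma lift_Pn (hρ : IsRational ρ) (hσ : IsRational σ) {φ : V →ₗ[k] W} (hφ : IsEquiv ρ σ φ)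
    {B : Submodule k V} (hB : Stable ρ B) (hA : GoodIn hρ (B ⊓ LinearMap.ker φ)) {n : ℕ} {l : ℤ}
    {c : W} (hc : c ∈ B.map φ) (hcn : c ∈ Pn hσ n) (hcl : IsWt σ l c) :
    ∃ b ∈ B, b ∈ Pn hρ n ∧ IsWt ρ l b ∧ φ b = c := by
  obtain ⟨b0, hb0, hb0c⟩ := hc
  have h0 : φ (wt hρ l b0) = c := by rw [map_wt hρ hσ hφ, hb0c, wt_self hσ hcl]
  have key : ∀ m : ℕ, ∀ b ∈ B, b ∈ Pn hρ (n + m) → IsWt ρ l b → φ b = c →
      ∃ b ∈ B, b ∈ Pn hρ n ∧ IsWt ρ l b ∧ φ b = c := by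
    intro m
    induction m with
    | zero => intro b h1 h2 h3 h4; exact ⟨b, h1, h2, h3, h4⟩
    | succ m ih =>
      intro b h1 h2 h3 h4
      rw [← add_assoc] at h2
      by_cases hl : ∃ i : ℕ, i ≤ n + m ∧ l = (n + m : ℕ) - 2 * i
      · obtain ⟨i, hi, hli⟩ := hl
        have hw1 : Eo hρ i b ∈ B := hB.Eo_mem hρ h1 i
        have hw2 : Eo hρ i b ∈ Pn hρ (n + m + 1) := Pn_Eo hρ h2 i
        have hw3 : IsWt ρ ((n + m : ℕ) : ℤ) (Eo hρ i b) := by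
          have := Eo_isWt hρ h3 i
          rwa [hli, show ((n + m : ℕ) : ℤ) - 2 * i + 2 * i = (n + m : ℕ) by ring] at this
        have hw4 : φ (Eo hρ i b) = 0 := by
          rw [map_Eo hρ hσ hφ, h4]
          apply Eo_eq_zero hσ hcn hcl
          rw [hli]
          push_cast
          omega
        obtain ⟨w, ⟨w1, w1'⟩, w2, w3, w4⟩ := hA (n + m) _ ⟨hw1, hw4⟩ hw2 hw3 i hi
        rw [← hli] at w3
        refine ih (b - w) (B.sub_mem h1 w1) ?_ (h3.sub w3) ?_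
        · apply mem_Pn_of_Eo hρ hi ((Pn hρ _).sub_mem h2 w2)
          · rw [← hli]; exact h3.sub w3
          · rw [map_sub, w4, sub_self]
        · have : φ w = 0 := w1'
          rw [map_sub, this, sub_zero, h4]
      · push Not at hl
        exact ih b h1 (mem_Pn_of_ne hρ h2 h3 hl) h3 h4
  obtain ⟨m, hm⟩ := exists_Pn hρ (wt hρ l b0)
  exact key m _ (hB.wt_mem hρ hb0 l) (Pn_mono hρ (by omega) hm) (wt_isWt hρ l b0) h0

/-- extensions -/
theorem GoodIn.ext (hρ : IsRational ρ) (hσ : IsRational σ) {φ : V →ₗ[k] W} (hφ : IsEquiv ρ σ φ)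
    {B : Submodule k V} (hB : Stable ρ B) (hA : GoodIn hρ (B ⊓ LinearMap.ker φ))
    (hC : GoodIn hσ (B.map φ)) : GoodIn hρ B := by
  intro n v hv hvn hvw i hi
  obtain ⟨w', hw1, hw2, hw3, hw4⟩ := hC n (φ v) ⟨v, hv, rfl⟩ (map_Pn hρ hσ hφ hvn)
    (hvw.map hφ) i hi
  obtain ⟨w, h1, h2, h3, h4⟩ := lift_Pn hρ hσ hφ hB hA hw1 hw2 hw3
  have hEw : IsWt ρ n (Eo hρ i w) := by
    have := Eo_isWt hρ h3 i
    rwa [show (n : ℤ) - 2 * i + 2 * i = n by ring] at this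
  have hd1 : Eo hρ i w - v ∈ B ⊓ LinearMap.ker φ := by
    refine ⟨B.sub_mem (hB.Eo_mem hρ h1 i) hv, ?_⟩
    change φ _ = 0
    rw [map_sub, map_Eo hρ hσ hφ, h4, hw4, sub_self]
  obtain ⟨a, ha1, ha2, ha3, ha4⟩ := hA n _ hd1 ((Pn hρ _).sub_mem (Pn_Eo hρ h2 i) hvn)
    (hEw.sub hvw) i hi
  refine ⟨w - a, B.sub_mem h1 ha1.1, (Pn hρ _).sub_mem h2 ha2, h3.sub ha3, ?_⟩
  rw [map_sub, ha4]
  abel

/-- quotients -/
theorem GoodIn.quot (hρ : IsRational ρ) (hσ : IsRational σ) {φ : V →ₗ[k] W} (hφ : IsEquiv ρ σ φ)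
    {B : Submodule k V} (hB : Stable ρ B) (hA : GoodIn hρ (B ⊓ LinearMap.ker φ))
    (hG : GoodIn hρ B) : GoodIn hσ (B.map φ) := by
  intro n v hv hvn hvw i hi
  obtain ⟨b, h1, h2, h3, h4⟩ := lift_Pn hρ hσ hφ hB hA hv hvn hvw
  obtain ⟨w, w1, w2, w3, w4⟩ := hG n b h1 h2 h3 i hi
  exact ⟨φ w, ⟨w, w1, rfl⟩, map_Pn hρ hσ hφ w2, w3.map hφ, by rw [← map_Eo hρ hσ hφ, w4, h4]⟩

/-- kernels -/
theorem GoodIn.ker (hρ : IsRational ρ) (hσ : IsRational σ) {φ : V →ₗ[k] W} (hφ : IsEquiv ρ σ φ)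
    {B : Submodule k V} (hB : Stable ρ B) (hG : GoodIn hρ B)
    (hU : ∀ n : ℕ, ∀ c ∈ B.map φ, c ∈ Pn hσ (n + 1) → IsWt σ n c →
      ∃ b ∈ B, b ∈ Pn hρ (n + 1) ∧ IsWt ρ n b ∧ φ b = c) :
    GoodIn hρ (B ⊓ LinearMap.ker φ) := by
  have hmap := hB.map hφ
  have surj : ∀ n : ℕ, ∀ l : ℤ, ∀ c ∈ B.map φ, c ∈ Pn hσ n → IsWt σ l c →
      ∃ b ∈ B, b ∈ Pn hρ n ∧ IsWt ρ l b ∧ φ b = c := by
    intro n
    induction n with
    | zero =>
      intro l c hc hc0 _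
      rw [Pn_zero, Submodule.mem_bot] at hc0
      exact ⟨0, B.zero_mem, Submodule.zero_mem _, isWt_zero l, by rw [map_zero, hc0]⟩
    | succ n ih =>
      intro l c hc hcn hcl
      by_cases hl : ∃ i : ℕ, i ≤ n ∧ l = n - 2 * i
      · obtain ⟨i, hi, hli⟩ := hl
        have hEc : IsWt σ n (Eo hσ i c) := by
          have := Eo_isWt hσ hcl i
          rwa [hli, show (n : ℤ) - 2 * i + 2 * i = n by ring] at this
        obtain ⟨e, he1, he2, he3, he4⟩ := hU n _ (hmap.Eo_mem hσ hc i) (Pn_Eo hσ hcn i) hEc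
        obtain ⟨w, w1, w2, w3, w4⟩ := hG n e he1 he2 he3 i hi
        rw [← hli] at w3
        have h1 : c - φ w ∈ Pn hσ n := by
          apply mem_Pn_of_Eo hσ hi ((Pn hσ _).sub_mem hcn (map_Pn hρ hσ hφ w2))
          · rw [← hli]; exact hcl.sub (w3.map hφ)
          · rw [map_sub, ← map_Eo hρ hσ hφ, w4, he4, sub_self]
        obtain ⟨b, b1, b2, b3, b4⟩ := ih l (c - φ w)
          ((B.map φ).sub_mem hc ⟨w, w1, rfl⟩) h1 (hcl.sub (w3.map hφ))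
        refine ⟨w + b, B.add_mem w1 b1, (Pn hρ _).add_mem w2 (Pn_mono hρ (by omega) b2),
          w3.add b3, ?_⟩
        rw [map_add, b4]
        abel
      · push Not at hl
        obtain ⟨b, b1, b2, b3, b4⟩ := ih l c hc (mem_Pn_of_ne hσ hcn hcl hl) hcl
        exact ⟨b, b1, Pn_mono hρ (by omega) b2, b3, b4⟩
  intro n v hv hvn hvw i hi
  obtain ⟨w', h1, h2, h3, h4⟩ := hG n v hv.1 hvn hvw i hi
  have hφv : φ v = 0 := hv.2
  have hm : φ w' ∈ Pn hσ n := by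
    apply mem_Pn_of_Eo hσ hi (map_Pn hρ hσ hφ h2) (h3.map hφ)
    rw [← map_Eo hρ hσ hφ, h4, hφv]
  obtain ⟨b, b1, b2, b3, b4⟩ := surj n _ (φ w') ⟨w', h1, rfl⟩ hm (h3.map hφ)
  refine ⟨w' - b, ⟨B.sub_mem h1 b1, ?_⟩, (Pn hρ _).sub_mem h2 (Pn_mono hρ (by omega) b2),
    h3.sub b3, ?_⟩
  · change φ _ = 0
    rw [map_sub, b4, sub_self]
  · rw [map_sub, h4, Eo_eq_zero hρ b2 b3 (by omega), sub_zero]

/-- unions -/
theorem GoodIn.iSup (hρ : IsRational ρ) (N : ℕ → Submodule k V) (hN : Monotone N)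
    (h : ∀ i, GoodIn hρ (N i)) : GoodIn hρ (⨆ i, N i) := by
  intro n v hv hvn hvw i hi
  rw [Submodule.mem_iSup_of_directed _ hN.directed_le] at hv
  obtain ⟨j, hj⟩ := hv
  obtain ⟨w, w1, w2⟩ := h j n v hj hvn hvw i hi
  exact ⟨w, Submodule.mem_iSup_of_mem j w1, w2⟩

/-- injective maps -/
theorem GoodIn.map_inj (hρ : IsRational ρ) (hσ : IsRational σ) {φ : V →ₗ[k] W}
    (hφ : IsEquiv ρ σ φ) (hinj : Function.Injective φ) {B : Submodule k V} (hB : Stable ρ B)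
    (hG : GoodIn hρ B) : GoodIn hσ (B.map φ) := by
  apply GoodIn.quot hρ hσ hφ hB _ hG
  rw [LinearMap.ker_eq_bot.2 hinj, inf_bot_eq]
  exact GoodIn.bot hρ

theorem GoodIn.equiv (hρ : IsRational ρ) (hσ : IsRational σ) (e : V ≃ₗ[k] W)
    (he : ∀ g v, e (ρ g v) = σ g (e v)) (hG : GoodIn hρ ⊤) : GoodIn hσ ⊤ := by
  have := GoodIn.map_inj hρ hσ (φ := e.toLinearMap) he e.injective Stable.top hG
  rwa [Submodule.map_top, LinearEquiv.range] at this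

/-- products -/
lemma isEquiv_fst : IsEquiv (ρ.prod σ) ρ (LinearMap.fst k V W) := fun _ _ => rfl

lemma isEquiv_snd : IsEquiv (ρ.prod σ) σ (LinearMap.snd k V W) := fun _ _ => rfl

lemma isEquiv_inl : IsEquiv ρ (ρ.prod σ) (LinearMap.inl k V W) := by
  intro g v
  change (ρ g v, (0 : W)) = (ρ g v, σ g 0)
  rw [map_zero]

theorem GoodIn.prod (hρ : IsRational ρ) (hσ : IsRational σ) (hp : IsRational (ρ.prod σ))
    (h1 : GoodIn hρ ⊤) (h2 : GoodIn hσ ⊤) : GoodIn hp ⊤ := by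
  apply GoodIn.ext hp hσ (φ := LinearMap.snd k V W) isEquiv_snd Stable.top
  · rw [top_inf_eq]
    have := GoodIn.map_inj hρ hp (φ := LinearMap.inl k V W) isEquiv_inl
      LinearMap.inl_injective Stable.top h1
    rwa [Submodule.map_top, LinearMap.range_inl] at this
  · rw [Submodule.map_top, LinearMap.range_eq_top.2 (fun y => ⟨((0 : V), y), rfl⟩)]
    exact h2

end Pool.Agent.Helper66.TR
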