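import Pool.Agent.Helper66.TR.Weights

/-!
# The largest submodule with weights less than `n`
-/

set_option autoImplicit false
set_option linter.unusedSectionVars false

namespace Pool.Agent.Helper66.TR

open Finset

variable {k : Type*} [Field k] [Infinite k] {V W : Type*} [AddCommGroup V] [Module k V]
  [AddCommGroup W] [Module k W] {ρ : Representation k (G k) V} {σ : Representation k (G k) W}

/-- the largest stable subspace with weights `< n` -/
noncomputable def Pn (hρ : IsRational ρ) (n : ℕ) : Submodule k V where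
  carrier := {v | ∀ g, ∀ l : ℤ, (n : ℤ) ≤ l → wt hρ l (ρ g v) = 0}
  add_mem' ha hb g l hl := by rw [map_add, map_add, ha g l hl, hb g l hl, add_zero]
  zero_mem' g l _ := by rw [map_zero, map_zero]
  smul_mem' c v hv g l hl := by rw [map_smul, map_smul, hv g l hl, smul_zero]

lemma mem_Pn (hρ : IsRational ρ) {n : ℕ} {v : V} :
    v ∈ Pn hρ n ↔ ∀ g, ∀ l : ℤ, (n : ℤ) ≤ l → wt hρ l (ρ g v) = 0 := Iff.rfl

lemma Pn_stable (hρ : IsRational ρ) (n : ℕ) : Stable ρ (Pn hρ n) := by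
  intro g v hv h l hl
  rw [← mul_apply']
  exact hv _ l hl

lemma Pn_mono (hρ : IsRational ρ) {n m : ℕ} (h : n ≤ m) : Pn hρ n ≤ Pn hρ m := by
  intro v hv g l hl
  exact hv g l (by omega)

lemma Pn_wt (hρ : IsRational ρ) {n : ℕ} {v : V} (hv : v ∈ Pn hρ n) {l : ℤ} (hl : (n : ℤ) ≤ l) :
    wt hρ l v = 0 := by
  have := hv 1 l hl
  rwa [map_one] at this

lemma Pn_isWt (hρ : IsRational ρ) {n : ℕ} {v : V} (hv : v ∈ Pn hρ n) {l : ℤ} (hl : (n : ℤ) ≤ l)
    (h : IsWt ρ l v) : v = 0 := by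
  rw [← wt_self hρ h]
  exact Pn_wt hρ hv hl

/-- the weights are symmetric -/
lemma Pn_wt_neg (hρ : IsRational ρ) {n : ℕ} {v : V} (hv : v ∈ Pn hρ n) {l : ℤ}
    (hl : l ≤ -(n : ℤ)) : wt hρ l v = 0 := by
  have h1 := hv w0⁻¹ (-l) (by omega)
  have h2 := wt_w0 hρ l (ρ w0⁻¹ v)
  rw [w0_inv_apply, h1, map_zero] at h2
  exact h2

lemma Pn_isWt_neg (hρ : IsRational ρ) {n : ℕ} {v : V} (hv : v ∈ Pn hρ n) {l : ℤ}
    (hl : l ≤ -(n : ℤ)) (h : IsWt ρ l v) : v = 0 := by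
  rw [← wt_self hρ h]
  exact Pn_wt_neg hρ hv hl

lemma Pn_zero (hρ : IsRational ρ) : Pn hρ 0 = ⊥ := by
  rw [eq_bot_iff]
  intro v hv
  rw [Submodule.mem_bot]
  apply eq_zero_of_wt hρ
  intro l
  rcases le_total 0 l with h | h
  · exact Pn_wt hρ hv (by exact_mod_cast h)
  · exact Pn_wt_neg hρ hv (by simpa using h)

lemma exists_Pn (hρ : IsRational ρ) (v : V) : ∃ n, v ∈ Pn hρ n := by
  obtain ⟨m, f, w, h⟩ := hρ v
  have h1 : ∀ i, ∃ d : ℕ, ∀ l : ℤ, (d : ℤ) < |l| → wt hρ l (w i) = 0 := by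
    intro i
    obtain ⟨d, hd⟩ := sum_wt hρ (w i)
    exact ⟨d, (hd d le_rfl).1⟩
  choose d hd using h1
  refine ⟨∑ i, d i + 1, fun g l hl => ?_⟩
  rw [h, map_sum]
  apply sum_eq_zero
  intro i _
  rw [map_smul, hd i l, smul_zero]
  have h2 : d i ≤ ∑ i, d i := single_le_sum (f := d) (fun _ _ => Nat.zero_le _) (mem_univ i)
  have h3 := le_abs_self l
  omega

lemma map_Pn (hρ : IsRational ρ) (hσ : IsRational σ) {φ : V →ₗ[k] W} (hφ : IsEquiv ρ σ φ) {n : ℕ}
    {v : V} (hv : v ∈ Pn hρ n) : φ v ∈ Pn hσ n := by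
  intro g l hl
  rw [← hφ, ← map_wt hρ hσ hφ, hv g l hl, map_zero]

lemma Pn_Eo (hρ : IsRational ρ) {n : ℕ} {v : V} (hv : v ∈ Pn hρ n) (j : ℕ) :
    Eo hρ j v ∈ Pn hρ n := (Pn_stable hρ n).Eo_mem hρ hv j

lemma Pn_wt_mem (hρ : IsRational ρ) {n : ℕ} {v : V} (hv : v ∈ Pn hρ n) (j : ℤ) :
    wt hρ j v ∈ Pn hρ n := (Pn_stable hρ n).wt_mem hρ hv j

/-- lower unipotent matrices fix the highest component -/
lemma lo_top (hρ : IsRational ρ) {n : ℕ} {v : V} (hv : v ∈ Pn hρ (n + 1)) (c : k) :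
    wt hρ n (ρ (lo c) v) = wt hρ n v := by
  obtain ⟨d, hd⟩ := sum_wt hρ v
  obtain ⟨h1, h2⟩ := hd (d + n) (by omega)
  conv_lhs => rw [h2]
  rw [map_sum, map_sum, sum_eq_single (n : ℤ)]
  · rw [lo_wt hρ (wt_isWt hρ n v) le_rfl, if_pos rfl]
  · intro l _ hl
    by_cases hln : l ≤ n
    · rw [lo_wt hρ (wt_isWt hρ l v) hln, if_neg hl]
    · rw [Pn_wt hρ hv (by push_cast; omega), map_zero, map_zero]
  · intro h
    exfalso
    apply h
    rw [mem_Icc]
    constructor <;> push_cast <;> omega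

/-- the big cell -/
lemma big_cell (g : G k) (h : g.1 0 0 ≠ 0) :
    g = lo (g.1 1 0 / g.1 0 0) * (tor (Units.mk0 _ h) * up (g.1 0 1 / g.1 0 0)) := by
  apply Subtype.ext
  rw [Matrix.SpecialLinearGroup.coe_mul, Matrix.SpecialLinearGroup.coe_mul]
  have hdet := g.2
  rw [Matrix.det_fin_two] at hdet
  ext i j
  fin_cases i <;> fin_cases j <;>
    simp [lo, tor, up, Matrix.mul_apply, Fin.sum_univ_two]
  · field_simp
  · field_simp
  · field_simp
    linear_combination hdet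

lemma up_coef (hρ : IsRational ρ) {l : ℤ} {v : V} (h : IsWt ρ l v) (m : ℤ) (a : k) (i : ℕ)
    (him : m = l + 2 * i) : wt hρ m (ρ (up a) v) = a ^ i • Eo hρ i v := by
  obtain ⟨d, h1⟩ := ((Eo_spec hρ v).map (wt hρ m)).extend
  have h2 := (h1 (d + i + 1) (by omega)).2 a
  rw [h2, sum_eq_single i]
  · have := Eo_isWt hρ h i
    rw [← him] at this
    rw [wt_self hρ this]
  · intro j _ hj
    rw [wt_ne hρ (Eo_isWt hρ h j) (by omega), smul_zero]
  · intro hi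
    exact absurd (mem_range.2 (by omega)) hi

lemma up_coef_none (hρ : IsRational ρ) {l : ℤ} {v : V} (h : IsWt ρ l v) (m : ℤ) (a : k)
    (him : ∀ i : ℕ, m ≠ l + 2 * i) : wt hρ m (ρ (up a) v) = 0 := by
  obtain ⟨d, h1⟩ := ((Eo_spec hρ v).map (wt hρ m)).extend
  have h2 := (h1 d le_rfl).2 a
  rw [h2]
  apply sum_eq_zero
  intro j _
  rw [wt_ne hρ (Eo_isWt hρ h j) (him j), smul_zero]

/-- extension of an identity from the big cell -/
lemma cell_ext (hρ : IsRational ρ) (v : V) (φ : V →ₗ[k] W) (c : k → k → W)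
    (hc : ∀ x y : k, IsPoly (fun s => c (x + s * y) y))
    (h : ∀ g : G k, g.1 0 0 ≠ 0 → φ (ρ g v) = c (g.1 0 0) (g.1 0 1)) (g : G k) :
    φ (ρ g v) = c (g.1 0 0) (g.1 0 1) := by
  by_cases h0 : g.1 0 0 = 0
  swap
  · exact h g h0
  have hdet := g.2
  rw [Matrix.det_fin_two, h0, zero_mul, zero_sub] at hdet
  have h01 : g.1 0 1 ≠ 0 := by
    intro h1
    rw [h1, zero_mul, neg_zero] at hdet
    exact zero_ne_one hdet
  have e0 : ∀ s : k, (g * lo s).1 0 0 = g.1 0 0 + s * g.1 0 1 := by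
    intro s
    rw [Matrix.SpecialLinearGroup.coe_mul]
    simp [lo, Matrix.mul_apply, Fin.sum_univ_two]
    ring
  have e1 : ∀ s : k, (g * lo s).1 0 1 = g.1 0 1 := by
    intro s
    rw [Matrix.SpecialLinearGroup.coe_mul]
    simp [lo, Matrix.mul_apply, Fin.sum_univ_two]
  have hp : IsPoly (fun s => φ (ρ (g * lo s) v) + (-1 : k) • c (g.1 0 0 + s * g.1 0 1) (g.1 0 1)) := by
    apply IsPoly.add
    · refine ((isPoly_lo hρ v).map (φ.comp (ρ g))).congr (fun s => ?_)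
      rw [mul_apply']
      rfl
    · exact (hc _ _).csmul _
  have h2 := hp.eq_zero 0 (fun s hs => by
    beta_reduce
    rw [h (g * lo s) (by rw [e0, h0, zero_add]; exact mul_ne_zero hs h01), e0, e1]
    simp) 0
  beta_reduce at h2
  rw [lo_zero, mul_one, zero_mul, add_zero] at h2
  rw [neg_smul, one_smul, ← sub_eq_add_neg, sub_eq_zero] at h2
  exact h2

/-- the highest component of the translates of a weight vector -/
lemma K1 (hρ : IsRational ρ) {n i : ℕ} (hi : i ≤ n) {v : V} (hv : v ∈ Pn hρ (n + 1))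
    (h : IsWt ρ (n - 2 * i) v) (g : G k) :
    wt hρ n (ρ g v) = (g.1 0 0 ^ (n - i) * g.1 0 1 ^ i) • Eo hρ i v := by
  apply cell_ext hρ v (wt hρ n) (fun x y => (x ^ (n - i) * y ^ i) • Eo hρ i v)
  · intro x y
    refine ((IsPoly.const (Eo hρ i v)).psmul
      ((Polynomial.C x + Polynomial.X * Polynomial.C y) ^ (n - i) * Polynomial.C y ^ i)).congr
      (fun s => ?_)
    simp [mul_comm s y]
  · intro g h0
    rw [big_cell g h0, mul_apply', lo_top hρ, mul_apply', wt_tor, up_coef hρ h n _ i (by ring),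
      smul_smul, ← big_cell g h0]
    · congr 1
      obtain ⟨m, rfl⟩ := Nat.exists_eq_add_of_le hi
      rw [Nat.add_sub_cancel_left, Units.val_zpow_eq_zpow_val, Units.val_mk0, zpow_natCast,
        div_pow, pow_add]
      field_simp
    · exact Pn_stable hρ _ _ _ hv

lemma K2 (hρ : IsRational ρ) {n : ℕ} {l : ℤ} {v : V} (hv : v ∈ Pn hρ (n + 1))
    (h : IsWt ρ l v) (hl : ∀ i : ℕ, i ≤ n → l ≠ n - 2 * i) (g : G k) :
    wt hρ n (ρ g v) = 0 := by
  by_cases hl2 : l ≤ -((n + 1 : ℕ) : ℤ)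
  · rw [Pn_isWt_neg hρ hv hl2 h, map_zero, map_zero]
  refine cell_ext hρ v (wt hρ n) (fun _ _ => 0) (fun x y => IsPoly.const 0) ?_ g
  intro g h0
  rw [big_cell g h0, mul_apply', lo_top hρ, mul_apply', wt_tor, up_coef_none hρ h n, smul_zero]
  · intro i hi
    exact hl i (by push_cast at hl2; omega) (by omega)
  · exact Pn_stable hρ _ _ _ hv

/-- criterion for membership in the next smaller hull -/
lemma mem_Pn_of (hρ : IsRational ρ) {n : ℕ} {v : V} (hv : v ∈ Pn hρ (n + 1))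
    (h : ∀ g, wt hρ n (ρ g v) = 0) : v ∈ Pn hρ n := by
  intro g l hl
  rcases eq_or_lt_of_le hl with h1 | h1
  · rw [← h1]; exact h g
  · exact hv g l (by push_cast; omega)

lemma mem_Pn_of_Eo (hρ : IsRational ρ) {n i : ℕ} (hi : i ≤ n) {v : V} (hv : v ∈ Pn hρ (n + 1))
    (h : IsWt ρ (n - 2 * i) v) (h0 : Eo hρ i v = 0) : v ∈ Pn hρ n :=
  mem_Pn_of hρ hv fun g => by rw [K1 hρ hi hv h, h0, smul_zero]

lemma mem_Pn_of_ne (hρ : IsRational ρ) {n : ℕ} {l : ℤ} {v : V} (hv : v ∈ Pn hρ (n + 1))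
    (h : IsWt ρ l v) (hl : ∀ i : ℕ, i ≤ n → l ≠ n - 2 * i) : v ∈ Pn hρ n :=
  mem_Pn_of hρ hv fun g => K2 hρ hv h hl g

/-- vectors of highest weight in a hull are invariant under the upper unipotent matrices -/
lemma Pn_isU (hρ : IsRational ρ) {n : ℕ} {v : V} (hv : v ∈ Pn hρ (n + 1)) (h : IsWt ρ n v) :
    IsU ρ v := by
  intro a
  obtain ⟨d, h1⟩ := (Eo_spec hρ v).extend
  have h2 := (h1 (d + 1) (by omega)).2 a
  rw [h2, sum_range_succ', pow_zero, one_smul, Eo_zero]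
  rw [sum_eq_zero, zero_add]
  intro j _
  rw [Pn_isWt hρ (Pn_Eo hρ hv (j + 1)) (l := n + 2 * ((j + 1 : ℕ) : ℤ)) (by push_cast; omega)
    (Eo_isWt hρ h (j + 1)), smul_zero]

/-- invariants of the upper unipotent matrices generate submodules with smaller weights -/
lemma isU_wt (hρ : IsRational ρ) {m : ℤ} {v : V} (hU : IsU ρ v) (h : IsWt ρ m v) (g : G k) {l : ℤ}
    (hl : m < l) : wt hρ l (ρ g v) = 0 := by
  refine cell_ext hρ v (wt hρ l) (fun _ _ => 0) (fun x y => IsPoly.const 0) ?_ g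
  intro g h0
  rw [big_cell g h0, mul_apply', mul_apply', hU, h, map_smul, map_smul, lo_wt hρ h hl.le,
    if_neg hl.ne, smul_zero]

lemma isU_mem (hρ : IsRational ρ) {n : ℕ} {v : V} (hU : IsU ρ v) (h : IsWt ρ n v) :
    v ∈ Pn hρ (n + 1) := by
  intro g l hl
  exact isU_wt hρ hU h g (by push_cast at hl; omega)

lemma isU_neg (hρ : IsRational ρ) {m : ℤ} {v : V} (hU : IsU ρ v) (h : IsWt ρ m v) (hm : m < 0) :
    v = 0 := by
  have : v ∈ Pn hρ 0 := fun g l hl => isU_wt hρ hU h g (by push_cast at hl; omega)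
  rw [Pn_zero] at this
  exact this

/-- coefficients of higher weight vanish -/
lemma Eo_eq_zero (hρ : IsRational ρ) {n : ℕ} {l : ℤ} {v : V} (hv : v ∈ Pn hρ n) (h : IsWt ρ l v)
    {j : ℕ} (hj : (n : ℤ) ≤ l + 2 * j) : Eo hρ j v = 0 :=
  Pn_isWt hρ (Pn_Eo hρ hv j) hj (Eo_isWt hρ h j)

lemma IsU.Eo_eq (hρ : IsRational ρ) {v : V} (hU : IsU ρ v) {j : ℕ} (hj : j ≠ 0) :
    Eo hρ j v = 0 := by
  have h := (Eo_spec hρ v).unique ((PolyCo.const v).congr hU)
  have h2 := congrFun h j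
  rw [h2, if_neg hj]

end Pool.Agent.Helper66.TR
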