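import Pool.Agent.Helper66.TR.Two
import Pool.Agent.Helper66.TR.FDefs

/-!
# The structure of the induced modules
-/

set_option autoImplicit false
set_option linter.unusedSectionVars false

namespace Pool.Agent.Helper66.TR

open Finset

section

variable {k : Type*} [Field k] {V W : Type*} [AddCommGroup V] [Module k V]
  [AddCommGroup W] [Module k W]

/-- a stable subspace as a representation -/
def sub (ρ : Representation k (G k) V) {X : Submodule k V} (hX : Stable ρ X) :
    Representation k (G k) X :=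
  ρ.subrepresentation X (fun g v hv => hX g v hv)

lemma sub_coe (ρ : Representation k (G k) V) {X : Submodule k V} (hX : Stable ρ X) (g : G k)
    (x : X) : ((sub ρ hX g x : X) : V) = ρ g x := rfl

lemma sub_isEquiv {ρ : Representation k (G k) V} {X : Submodule k V} (hX : Stable ρ X) :
    IsEquiv (sub ρ hX) ρ X.subtype := fun _ _ => rfl

lemma IsReg.sub {F : G k → V} (h : IsReg F) {X : Submodule k V} (F' : G k → X)
    (hF : ∀ g, F g = F' g) : IsReg F' := by
  obtain ⟨π, hπ⟩ := LinearMap.exists_leftInverse_of_injective X.subtype (by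
    rw [Submodule.ker_subtype])
  refine (h.map π).congr (fun g => ?_)
  rw [hF]
  exact (LinearMap.congr_fun hπ (F' g)).symm

lemma isRational_sub {ρ : Representation k (G k) V} (hρ : IsRational ρ) {X : Submodule k V}
    (hX : Stable ρ X) : IsRational (sub ρ hX) := by
  rw [isRational_iff] at *
  intro x
  exact (hρ x).sub _ (fun g => rfl)

/-- a quotient representation -/
def quo (ρ : Representation k (G k) V) {X : Submodule k V} (hX : Stable ρ X) :
    Representation k (G k) (V ⧸ X) :=
  ρ.quotient X (fun g v hv => hX g v hv)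

lemma quo_isEquiv {ρ : Representation k (G k) V} {X : Submodule k V} (hX : Stable ρ X) :
    IsEquiv ρ (quo ρ hX) X.mkQ := fun _ _ => rfl

lemma isRational_quo {ρ : Representation k (G k) V} (hρ : IsRational ρ) {X : Submodule k V}
    (hX : Stable ρ X) : IsRational (quo ρ hX) := by
  rw [isRational_iff] at *
  intro x
  obtain ⟨v, rfl⟩ := X.mkQ_surjective x
  exact (hρ v).map X.mkQ

/-! ### regular functions -/

/-- multiplication by a matrix entry -/
def mulEntry (k : Type*) [Field k] (i j : Fin 2) : (G k → k) →ₗ[k] (G k → k) where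
  toFun F := fun g => F g * g.1 i j
  map_add' F F' := by funext g; simp [add_mul]
  map_smul' c F := by funext g; simp [mul_assoc]

lemma inv_entries (h : G k) : h⁻¹.1 = !![h.1 1 1, -h.1 0 1; -h.1 1 0, h.1 0 0] := by
  rw [Matrix.SpecialLinearGroup.coe_inv, Matrix.adjugate_fin_two]

lemma IsReg.inv_entry {F : G k → V} (h : IsReg F) (i j : Fin 2) :
    IsReg (fun g => g⁻¹.1 i j • F g) := by
  have neg : ∀ i j : Fin 2, IsReg (fun g => (-g.1 i j) • F g) := fun i j =>
    ((h.entry i j).map (-LinearMap.id)).congr (fun g => by simp)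
  fin_cases i <;> fin_cases j
  · exact (h.entry 1 1).congr (fun g => by rw [inv_entries]; rfl)
  · exact (neg 0 1).congr (fun g => by rw [inv_entries]; rfl)
  · exact (neg 1 0).congr (fun g => by rw [inv_entries]; rfl)
  · exact (h.entry 0 0).congr (fun g => by rw [inv_entries]; rfl)

lemma isReg_translate (P : MvPolynomial (Fin 2 × Fin 2) k) :
    IsReg (fun h : G k => (fun g : G k =>
      MvPolynomial.eval (fun p => (h⁻¹ * g).1 p.1 p.2) P : G k → k)) := by
  induction P using MvPolynomial.induction_on with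
  | C a => exact (IsReg.const (fun _ : G k => a)).congr (fun h => by simp)
  | add p q hp hq => exact (hp.add hq).congr (fun h => by funext g; simp)
  | mul_X p i hp =>
    have h1 := (((hp.map (mulEntry k 0 i.2)).inv_entry i.1 0).add
      ((hp.map (mulEntry k 1 i.2)).inv_entry i.1 1))
    refine h1.congr (fun h => ?_)
    funext g
    rw [map_mul, MvPolynomial.eval_X, Matrix.SpecialLinearGroup.coe_mul, Matrix.mul_apply,
      Fin.sum_univ_two]
    simp [mulEntry]
    ring

lemma isRational_ind (n : ℕ) : IsRational (indRep k n) := by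
  rw [isRational_iff]
  rintro ⟨F, ⟨P, hP⟩, hF⟩
  refine (isReg_translate P).sub _ (fun h => ?_)
  funext g
  exact (hP (h⁻¹ * g)).symm

/-- a regular function vanishing where the last entry is not zero is zero -/
lemma reg_ext [Infinite k] {F : G k → k} (P : MvPolynomial (Fin 2 × Fin 2) k)
    (hP : ∀ g : G k, F g = MvPolynomial.eval (fun p => g.1 p.1 p.2) P)
    (h : ∀ g : G k, g.1 1 1 ≠ 0 → F g = 0) (g : G k) : F g = 0 := by
  by_cases h0 : g.1 1 1 = 0
  swap
  · exact h g h0
  have hdet := g.2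
  rw [Matrix.det_fin_two, h0, mul_zero, zero_sub] at hdet
  have h10 : g.1 1 0 ≠ 0 := by
    intro h1
    rw [h1, mul_zero, neg_zero] at hdet
    exact zero_ne_one hdet
  have hp : IsPoly (fun s => F (g * up s)) := by
    have h1 := (IsPoly.const (1 : k)).psmul (MvPolynomial.aeval (fun p : Fin 2 × Fin 2 =>
      (!![Polynomial.C (g.1 0 0), Polynomial.C (g.1 0 1) + Polynomial.C (g.1 0 0) * Polynomial.X;
        Polynomial.C (g.1 1 0), Polynomial.C (g.1 1 1) + Polynomial.C (g.1 1 0) * Polynomial.X] :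
        Matrix (Fin 2) (Fin 2) (Polynomial k)) p.1 p.2) P)
    refine h1.congr (fun s => ?_)
    rw [hP, eval_curve, smul_eq_mul, mul_one]
    congr 2
    funext p
    obtain ⟨i, j⟩ := p
    rw [Matrix.SpecialLinearGroup.coe_mul]
    fin_cases i <;> fin_cases j <;>
      simp [up, Matrix.mul_apply, Fin.sum_univ_two] <;> ring
  have h2 := hp.eq_zero 0 (fun s hs => by
    apply h
    rw [Matrix.SpecialLinearGroup.coe_mul]
    simp [up, Matrix.mul_apply, Fin.sum_univ_two, h0]
    exact ⟨h10, hs⟩) 0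
  beta_reduce at h2
  rwa [up_zero, mul_one] at h2

end

section

variable {k : Type*} [Field k]

/-- the standard basis of the induced module -/
def eb (k : Type*) [Field k] (n i : ℕ) (hi : i ≤ n) : Ind k n :=
  ⟨fun g => g.1 0 1 ^ i * g.1 1 1 ^ (n - i),
    ⟨MvPolynomial.X (0, 1) ^ i * MvPolynomial.X (1, 1) ^ (n - i), fun g => by simp⟩, by
    intro g c z
    obtain ⟨m, rfl⟩ := Nat.exists_eq_add_of_le hi
    rw [Nat.add_sub_cancel_left]
    simp [Matrix.SpecialLinearGroup.coe_mul, Matrix.mul_apply, Fin.sum_univ_two, lo, tor]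
    ring⟩

lemma eb_apply (n i : ℕ) (hi : i ≤ n) (g : G k) :
    (eb k n i hi).1 g = g.1 0 1 ^ i * g.1 1 1 ^ (n - i) := rfl

/-- an element of the induced module is determined by its values on the upper unipotent
matrices -/
lemma ind_apply {n : ℕ} (F : Ind k n) (g : G k) (h : g.1 1 1 ≠ 0) :
    F.1 g = g.1 1 1 ^ n * F.1 (up (g.1 0 1 / g.1 1 1)) := by
  have e : g = up (g.1 0 1 / g.1 1 1) * (lo (g.1 1 0 * g.1 1 1) *
      tor (Units.mk0 _ h)⁻¹) := by
    apply Subtype.ext
    rw [Matrix.SpecialLinearGroup.coe_mul, Matrix.SpecialLinearGroup.coe_mul]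
    have hdet := g.2
    rw [Matrix.det_fin_two] at hdet
    ext i j
    fin_cases i <;> fin_cases j <;>
      simp [lo, tor, up, Matrix.mul_apply, Fin.sum_univ_two]
    · field_simp
      linear_combination hdet
    · field_simp
    · field_simp
  have h1 := F.2.2 (up (g.1 0 1 / g.1 1 1)) (g.1 1 0 * g.1 1 1) (Units.mk0 _ h)⁻¹
  rw [← e, inv_inv] at h1
  exact h1

variable [Infinite k]

lemma ind_ext {n : ℕ} {F F' : Ind k n} (h : ∀ g : G k, g.1 1 1 ≠ 0 → F.1 g = F'.1 g) :
    F = F' := by
  rw [← sub_eq_zero]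
  obtain ⟨⟨P, hP⟩, -⟩ := (F - F').2
  apply Subtype.ext
  funext g
  exact reg_ext P hP (fun g hg => by
    change F.1 g - F'.1 g = 0
    rw [h g hg, sub_self]) g

lemma isWt_eb (n i : ℕ) (hi : i ≤ n) : IsWt (indRep k n) (n - 2 * i) (eb k n i hi) := by
  intro z
  apply Subtype.ext
  funext g
  change (eb k n i hi).1 ((tor z)⁻¹ * g) = _ * (eb k n i hi).1 g
  rw [eb_apply, eb_apply, Matrix.SpecialLinearGroup.coe_mul, inv_entries]
  obtain ⟨m, rfl⟩ := Nat.exists_eq_add_of_le hi
  rw [Nat.add_sub_cancel_left]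
  have e : (((i + m : ℕ) : ℤ) - 2 * i) = (m : ℤ) - i := by push_cast; ring
  rw [e, zpow_sub, zpow_natCast, zpow_natCast]
  simp [Matrix.mul_apply, Fin.sum_univ_two, tor]
  ring

lemma ind_up_eb (n i : ℕ) (hi : i ≤ n) (a : k) : (indRep k n (up a) (eb k n i hi)) =
    ∑ j ∈ range (i + 1), a ^ j • (if h : j ≤ i then ((-1) ^ j * (i.choose j : k)) •
      eb k n (i - j) (by omega) else 0) := by
  apply Subtype.ext
  funext g
  change (eb k n i hi).1 ((up a)⁻¹ * g) = _
  rw [eb_apply, Matrix.SpecialLinearGroup.coe_mul, inv_entries]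
  have h1 : ∀ s : Finset ℕ, ∀ f : ℕ → Ind k n, ((∑ j ∈ s, f j : Ind k n) : G k → k) g =
      ∑ j ∈ s, (f j).1 g := by
    intro s f
    rw [Submodule.coe_sum, Finset.sum_apply]
  rw [h1]
  simp only [up, Matrix.mul_apply, Fin.sum_univ_two, Matrix.of_apply, Matrix.cons_val', 
    Matrix.cons_val_zero, Matrix.cons_val_one, Matrix.cons_val_fin_one, neg_zero, zero_mul,
    zero_add, one_mul]
  rw [add_comm (g.1 0 1), add_pow, Finset.sum_mul]
  apply sum_congr rfl
  intro j hj
  have hj' : j ≤ i := by have := mem_range.1 hj; omega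
  rw [dif_pos hj']
  change _ = a ^ j * ((-1) ^ j * (i.choose j : k) * (g.1 0 1 ^ (i - j) * g.1 1 1 ^ (n - (i - j))))
  have e : n - (i - j) = j + (n - i) := by omega
  rw [e, pow_add, neg_mul, neg_pow, mul_pow]
  ring

lemma Eo_eb (n i : ℕ) (hi : i ≤ n) :
    Eo (isRational_ind (k := k) n) i (eb k n i hi) = (-1 : k) ^ i • eb k n 0 (Nat.zero_le _) := by
  have h1 : PolyCo (fun a => indRep k n (up a) (eb k n i hi))
      (fun j => if h : j ≤ i then ((-1) ^ j * (i.choose j : k)) •
      eb k n (i - j) (by omega) else 0) :=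
    ⟨i + 1, fun j hj => dif_neg (by omega), fun a => ind_up_eb n i hi a⟩
  have h2 := congrFun ((Eo_spec (isRational_ind (k := k) n) (eb k n i hi)).unique h1) i
  rw [h2]
  beta_reduce
  rw [dif_pos le_rfl, Nat.choose_self, Nat.cast_one, mul_one]
  congr 1
  apply Subtype.ext
  funext g
  rw [eb_apply, eb_apply, Nat.sub_self]

/-- the invariants of the upper unipotent matrices in the induced module -/
lemma ind_isU {n : ℕ} {F : Ind k n} (hU : IsU (indRep k n) F) :
    F = F.1 1 • eb k n 0 (Nat.zero_le _) := by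
  apply ind_ext
  intro g hg
  rw [ind_apply F g hg]
  change _ = F.1 1 * _
  rw [eb_apply, pow_zero, one_mul, Nat.sub_zero, mul_comm]
  congr 1
  have h1 := congrArg (fun F' : Ind k n => F'.1 (up (g.1 0 1 / g.1 1 1)))
    (hU (g.1 0 1 / g.1 1 1))
  beta_reduce at h1
  have h2 : (indRep k n (up (g.1 0 1 / g.1 1 1)) F).1 (up (g.1 0 1 / g.1 1 1)) =
      F.1 ((up (g.1 0 1 / g.1 1 1))⁻¹ * up (g.1 0 1 / g.1 1 1)) := rfl
  rw [h2, inv_mul_cancel] at h1
  exact h1.symm

lemma eb_zero_ne (n : ℕ) : eb k n 0 (Nat.zero_le _) ≠ 0 := by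
  intro h
  have := congrArg (fun F' : Ind k n => F'.1 1) h
  beta_reduce at this
  rw [eb_apply] at this
  simp at this

lemma ind_isU_wt {n : ℕ} {F : Ind k n} (hU : IsU (indRep k n) F) {m : ℤ}
    (hw : IsWt (indRep k n) m F) (h0 : F ≠ 0) : m = n := by
  by_contra hm
  have h1 := ind_isU hU
  have h2 : IsWt (indRep k n) n F := by
    rw [h1]
    have := (isWt_eb (k := k) n 0 (Nat.zero_le _)).smul (F.1 1)
    simpa using this
  apply h0
  rw [← wt_self (isRational_ind (k := k) n) hw]
  exact wt_ne (isRational_ind (k := k) n) h2 hm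

/-- a vector in a hull but not in the smaller one gives an invariant -/
lemma exists_hw {V : Type*} [AddCommGroup V] [Module k V] {ρ : Representation k (G k) V}
    (hρ : IsRational ρ) {m : ℕ} {v : V} (hv : v ∈ Pn hρ (m + 1)) (hv' : v ∉ Pn hρ m) :
    ∃ g, wt hρ m (ρ g v) ≠ 0 ∧ IsU ρ (wt hρ m (ρ g v)) ∧ wt hρ m (ρ g v) ∈ Pn hρ (m + 1) := by
  have : ∃ g, wt hρ m (ρ g v) ≠ 0 := by
    by_contra hc
    push Not at hc
    exact hv' (mem_Pn_of hρ hv hc)
  obtain ⟨g, hg⟩ := this
  have h1 : wt hρ m (ρ g v) ∈ Pn hρ (m + 1) := Pn_wt_mem hρ (Pn_stable hρ _ g v hv) m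
  exact ⟨g, hg, Pn_isU hρ h1 (wt_isWt hρ _ _), h1⟩

lemma ind_Pn_top (n : ℕ) : Pn (isRational_ind (k := k) n) (n + 1) = ⊤ := by
  rw [eq_top_iff]
  intro F _
  obtain ⟨N, hN⟩ := exists_Pn (isRational_ind (k := k) n) F
  have key : ∀ m : ℕ, F ∈ Pn (isRational_ind (k := k) n) (n + 1 + m) →
      F ∈ Pn (isRational_ind (k := k) n) (n + 1) := by
    intro m
    induction m with
    | zero => exact id
    | succ m ih =>
      intro h
      apply ih
      by_contra hc
      obtain ⟨g, h1, h2, h3⟩ := exists_hw (m := n + 1 + m) _ h hc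
      have := ind_isU_wt h2 (wt_isWt _ _ _) h1
      omega
  exact key N (Pn_mono _ (by omega) hN)

lemma ind_Pn_bot (n : ℕ) : Pn (isRational_ind (k := k) n) n = ⊥ := by
  rw [eq_bot_iff]
  intro F hF
  have key : ∀ m : ℕ, m ≤ n → F ∈ Pn (isRational_ind (k := k) n) (n - m) := by
    intro m
    induction m with
    | zero => intro _; exact hF
    | succ m ih =>
      intro hm
      have h := ih (by omega)
      by_contra hc
      have e : n - m = (n - (m + 1)) + 1 := by omega
      rw [e] at h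
      obtain ⟨g, h1, h2, h3⟩ := exists_hw _ h hc
      have := ind_isU_wt h2 (wt_isWt _ _ _) h1
      omega
  have := key n le_rfl
  rwa [Nat.sub_self, Pn_zero] at this

/-- the induced modules satisfy the hull criterion -/
theorem GoodIn.ind (n : ℕ) : GoodIn (isRational_ind (k := k) n) ⊤ := by
  intro m v _ hv hvw i hi
  by_cases h0 : v = 0
  · subst h0
    exact ⟨0, trivial, Submodule.zero_mem _, isWt_zero _, map_zero _⟩
  have hU := Pn_isU _ hv hvw
  have hm : m = n := by exact_mod_cast ind_isU_wt hU hvw h0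
  subst hm
  refine ⟨(v.1 1 * (-1) ^ i) • eb k m i hi, trivial, ?_, (isWt_eb m i hi).smul _, ?_⟩
  · rw [ind_Pn_top]; trivial
  · rw [map_smul, Eo_eb, smul_smul, mul_assoc, ← mul_pow, neg_one_mul, neg_neg, one_pow, mul_one]
    exact (ind_isU hU).symm

/-- the standard basis spans -/
lemma ind_span (n : ℕ) (X : Submodule k (Ind k n)) (h : ∀ i (hi : i ≤ n), eb k n i hi ∈ X) :
    X = ⊤ := by
  rw [eq_top_iff]
  intro F _
  obtain ⟨d, hd⟩ := sum_wt (isRational_ind (k := k) n) F
  rw [(hd d le_rfl).2]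
  apply X.sum_mem
  intro l _
  set F' := wt (isRational_ind (k := k) n) l F with hF'
  have hw : IsWt (indRep k n) l F' := wt_isWt _ _ _
  have ht : F' ∈ Pn (isRational_ind (k := k) n) (n + 1) := by rw [ind_Pn_top]; trivial
  by_cases hl : ∃ i : ℕ, i ≤ n ∧ l = n - 2 * i
  · obtain ⟨i, hi, rfl⟩ := hl
    have h1 : IsWt (indRep k n) n (Eo (isRational_ind (k := k) n) i F') := by
      have := Eo_isWt (isRational_ind (k := k) n) hw i
      rwa [show (n : ℤ) - 2 * i + 2 * i = n by ring] at this
    have hU := Pn_isU _ (Pn_Eo _ ht i) h1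
    have h2 := ind_isU hU
    set c := (Eo (isRational_ind (k := k) n) i F').1 1 with hc
    have h3 : F' - (c * (-1) ^ i) • eb k n i hi ∈ Pn (isRational_ind (k := k) n) n := by
      apply mem_Pn_of_Eo (isRational_ind (k := k) n) hi
      · rw [ind_Pn_top]; trivial
      · exact hw.sub ((isWt_eb n i hi).smul _)
      · rw [map_sub, map_smul, Eo_eb, smul_smul, mul_assoc, ← mul_pow, neg_one_mul, neg_neg,
          one_pow, mul_one, ← h2, sub_self]
    rw [ind_Pn_bot, Submodule.mem_bot, sub_eq_zero] at h3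
    rw [h3]
    exact X.smul_mem _ (h i hi)
  · push Not at hl
    have := mem_Pn_of_ne (isRational_ind (k := k) n) ht hw hl
    rw [ind_Pn_bot, Submodule.mem_bot] at this
    rw [this]
    exact X.zero_mem

end

end Pool.Agent.Helper66.TR
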