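import Pool.Agent.Helper66.TR.Chain2

/-!
# Tensor powers of the natural representation and their sums
-/

set_option autoImplicit false
set_option linter.unusedSectionVars false

namespace Pool.Agent.Helper66.TR

open Finset TensorProduct

universe u v w

/-- bundled representations -/
structure Rp (k : Type u) [Field k] where
  V : Type u
  [ac : AddCommGroup V]
  [md : Module k V]
  ρ : Representation k (G k) V

attribute [instance] Rp.ac Rp.md

section

variable (k : Type u) [Field k]

/-- the tensor powers of the natural representation -/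
def Tn : ℕ → Rp k
  | 0 => ⟨k, Representation.trivial k (G k) k⟩
  | n + 1 => ⟨(Tn n).V × (Tn n).V, two (Tn n).ρ⟩

/-- the highest weight vector -/
def tv : (n : ℕ) → (Tn k n).V
  | 0 => (1 : k)
  | n + 1 => (tv n, 0)

/-- direct sum -/
noncomputable def Rp.prod (A B : Rp k) : Rp k := ⟨A.V × B.V, A.ρ.prod B.ρ⟩

/-- finite direct sums of tensor powers of the natural representation -/
inductive Nice : Rp k → Prop
  | tn (n : ℕ) : Nice (Tn k n)
  | prod (A B : Rp k) : Nice A → Nice B → Nice (Rp.prod k A B)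

end

variable {k : Type u} [Field k]

lemma tn_rational (n : ℕ) : IsRational (Tn k n).ρ := by
  induction n with
  | zero => exact isRational_trivial
  | succ n ih => exact isRational_two ih

lemma tn_finite (n : ℕ) : Module.Finite k (Tn k n).V := by
  induction n with
  | zero => exact inferInstanceAs (Module.Finite k k)
  | succ n ih => exact inferInstanceAs (Module.Finite k ((Tn k n).V × (Tn k n).V))

lemma Nice.rational {T : Rp k} (h : Nice k T) : IsRational T.ρ := by
  induction h with
  | tn n => exact tn_rational n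
  | prod A B _ _ ha hb => exact isRational_prod ha hb

lemma Nice.finite {T : Rp k} (h : Nice k T) : Module.Finite k T.V := by
  induction h with
  | tn n => exact tn_finite n
  | prod A B _ _ ha hb => exact inferInstanceAs (Module.Finite k (A.V × B.V))

lemma IsRational.of_surj {V : Type v} {W : Type w} [AddCommGroup V] [Module k V] [AddCommGroup W]
    [Module k W] {ρ : Representation k (G k) V} {σ : Representation k (G k) W} (hρ : IsRational ρ)
    {φ : V →ₗ[k] W} (hφ : IsEquiv ρ σ φ) (hs : Function.Surjective φ) : IsRational σ := by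
  rw [isRational_iff] at *
  intro w
  obtain ⟨v, rfl⟩ := hs w
  exact ((hρ v).map φ).congr (fun g => (hφ g v).symm)

variable [Infinite k]

/-! ### trivial representations -/

lemma good_trivial {V : Type v} [AddCommGroup V] [Module k V]
    {ρ : Representation k (G k) V} (hρ : IsRational ρ) (ht : ∀ g v, ρ g v = v) :
    GoodIn hρ ⊤ := by
  intro n v _ hv hw i hi
  have h0 : IsWt ρ 0 v := fun z => by rw [ht]; simp
  by_cases hn : n = 0
  · subst hn
    have : i = 0 := by omega
    subst this
    refine ⟨v, trivial, hv, ?_, Eo_zero hρ v⟩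
    simpa using h0
  · have : v = 0 := by
      rw [← wt_self hρ hw]
      exact wt_ne hρ h0 (by omega)
    subst this
    exact ⟨0, trivial, Submodule.zero_mem _, isWt_zero _, map_zero _⟩

lemma tn_good (n : ℕ) : GoodIn (tn_rational (k := k) n) ⊤ := by
  induction n with
  | zero => exact good_trivial _ (fun _ _ => rfl)
  | succ n ih => exact GoodIn.two (tn_rational n) ih

lemma Nice.good {T : Rp k} (h : Nice k T) : GoodIn h.rational ⊤ := by
  induction h with
  | tn n => exact tn_good n
  | prod A B ha hb iha ihb => exact GoodIn.prod ha.rational hb.rational _ iha ihb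

lemma isWt_trivial {V : Type v} [AddCommGroup V] [Module k V] (v : V) :
    IsWt (Representation.trivial k (G k) V) ((0 : ℕ) : ℤ) v := by
  intro z
  simp

lemma tv_isU (n : ℕ) : IsU (Tn k n).ρ (tv k n) := by
  induction n with
  | zero => intro a; rfl
  | succ n ih =>
    intro a
    change two (Tn k n).ρ (up a) (tv k n, 0) = (tv k n, 0)
    rw [two_up, ih a, map_zero, smul_zero, add_zero]

lemma tv_isWt (n : ℕ) : IsWt (Tn k n).ρ n (tv k n) := by
  induction n with
  | zero => exact isWt_trivial (1 : k)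
  | succ n ih =>
    apply two_isWt (n := ((n + 1 : ℕ) : ℤ)) (v := tv k n) (w := 0)
    · simpa using ih
    · exact isWt_zero _

/-- vectors of weight zero which are invariant under the upper unipotent matrices are
invariant -/
lemma inv_of_isU {V : Type v} [AddCommGroup V] [Module k V] {ρ : Representation k (G k) V}
    (hρ : IsRational ρ) {v : V} (hU : IsU ρ v) (hw : IsWt ρ 0 v) (g : G k) : ρ g v = v := by
  have hm : v ∈ Pn hρ 1 := isU_mem hρ (n := 0) hU (by simpa using hw)
  have hm2 : ρ g v ∈ Pn hρ 1 := Pn_stable hρ _ g v hm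
  rw [← sub_eq_zero]
  apply eq_zero_of_wt hρ
  intro l
  rw [map_sub]
  by_cases hl : l = 0
  · subst hl
    have h1 := K1 hρ (n := 0) (i := 0) le_rfl hm (by simpa using hw) g
    simp only [Nat.cast_zero, Nat.sub_self, pow_zero, one_mul, one_smul, Eo_zero] at h1
    rw [h1, wt_self hρ hw, sub_self]
  · have h3 : wt hρ l (ρ g v) = 0 := by
      rcases lt_or_gt_of_ne hl with h | h
      · exact Pn_wt_neg hρ hm2 (by push_cast; omega)
      · exact Pn_wt hρ hm2 (by push_cast; omega)
    rw [h3, wt_ne hρ hw hl, sub_self]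

lemma theta_zero {V : Type v} [AddCommGroup V] [Module k V]
    {ρ : Representation k (G k) V} (hρ : IsRational ρ) {v : V} (hU : IsU ρ v)
    (hw : IsWt ρ 0 v) : ∃ θ : k →ₗ[k] V, IsEquiv (Representation.trivial k (G k) k) ρ θ ∧
      θ 1 = v := by
  refine ⟨LinearMap.toSpanSingleton k V v, fun g x => ?_, ?_⟩
  · rw [Representation.trivial_apply, LinearMap.toSpanSingleton_apply, map_smul,
      inv_of_isU hρ hU hw]
  · rw [LinearMap.toSpanSingleton_apply, one_smul]

lemma theta_succ {V : Type v} {T : Type w} [AddCommGroup V] [Module k V] [AddCommGroup T]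
    [Module k T] {ρ : Representation k (G k) V} {τ : Representation k (G k) T}
    {θ' : T →ₗ[k] V × V} (hθ' : IsEquiv τ (two ρ) θ') {t0 : T} {x v : V}
    (hθv : θ' t0 = (x, -v)) : ∃ θ : T × T →ₗ[k] V, IsEquiv (two τ) ρ θ ∧ θ (t0, 0) = v := by
  refine ⟨(LinearMap.fst k V V ∘ₗ θ' ∘ₗ LinearMap.snd k T T) -
    (LinearMap.snd k V V ∘ₗ θ' ∘ₗ LinearMap.fst k T T), ?_, ?_⟩
  · rintro g ⟨t, t'⟩
    change (θ' (two τ g (t, t')).2).1 - (θ' (two τ g (t, t')).1).2 =
      ρ g ((θ' t').1 - (θ' t).2)
    rw [two_apply]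
    obtain ⟨p, q, h⟩ : ∃ p q, θ' t = (p, q) := ⟨_, _, rfl⟩
    obtain ⟨p', q', h'⟩ : ∃ p q, θ' t' = (p, q) := ⟨_, _, rfl⟩
    have e1 : θ' (τ g t) = two ρ g (p, q) := by rw [hθ', h]
    have e2 : θ' (τ g t') = two ρ g (p', q') := by rw [hθ', h']
    have hdet := g.2
    rw [Matrix.det_fin_two] at hdet
    simp only [map_add, map_smul, e1, e2, two_apply, Prod.fst_add, Prod.snd_add, Prod.smul_fst,
      Prod.smul_snd, h, h', map_sub]
    have e3 : ρ g p' - ρ g q = (g.1 0 0 * g.1 1 1 - g.1 0 1 * g.1 1 0) • (ρ g p' - ρ g q) := by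
      rw [hdet, one_smul]
    rw [e3]
    module
  · change (θ' (0 : T)).1 - (θ' t0).2 = v
    rw [map_zero, hθv]
    simp

/-- maps from the tensor powers -/
theorem exists_theta (n : ℕ) : ∀ {V : Type v} [AddCommGroup V] [Module k V]
    {ρ : Representation k (G k) V} (hρ : IsRational ρ) (_ : GoodIn hρ ⊤) {v : V} (_ : IsU ρ v)
    (_ : IsWt ρ n v), ∃ θ : (Tn k n).V →ₗ[k] V, IsEquiv (Tn k n).ρ ρ θ ∧ θ (tv k n) = v := by
  induction n with
  | zero =>
    intro V _ _ ρ hρ hG v hU hw
    exact theta_zero hρ hU (by simpa using hw)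
  | succ n ih =>
    intro V _ _ ρ hρ hG v hU hw
    have hv := isU_mem hρ hU hw
    obtain ⟨x, -, x2, x3, x4⟩ := hG (n + 1) v trivial hv hw 1 (by omega)
    have hxup : ∀ a, ρ (up a) x = x + a • v := by
      intro a
      obtain ⟨d, hd⟩ := (Eo_spec hρ x).extend
      have h1 := (hd (d + 2) (by omega)).2 a
      rw [h1, sum_range_succ', sum_range_succ']
      rw [sum_eq_zero, zero_add, pow_zero, one_smul, Eo_zero, zero_add, pow_one, x4, add_comm]
      intro j _
      rw [Eo_eq_zero hρ x2 x3 (by push_cast; omega), smul_zero]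
    have h1 : IsWt (two ρ) n (x, -v) := by
      apply two_isWt
      · rwa [show (((n + 1 : ℕ) : ℤ) - 2 * ((1 : ℕ) : ℤ)) = n - 1 by push_cast; ring] at x3
      · have := hw.smul (-1)
        rw [neg_smul, one_smul] at this
        exact_mod_cast this
    have h2 : IsU (two ρ) (x, -v) := by
      intro a
      rw [two_up, hxup, map_neg, hU a, smul_neg]
      congr 1
      abel
    obtain ⟨θ', hθ', hθv⟩ := ih (isRational_two hρ) (GoodIn.two hρ hG) h2 h1
    exact theta_succ hθ' hθv

/-! ### coverings -/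

section cover

variable {V : Type v} [AddCommGroup V] [Module k V] {ρ : Representation k (G k) V}

/-- `v` is the image of an invariant of weight `n` -/
def Hit (T : Rp k) (θ : T.V →ₗ[k] V) (n : ℕ) (v : V) : Prop :=
  ∃ t : T.V, IsU T.ρ t ∧ IsWt T.ρ n t ∧ θ t = v

lemma isWt_pair {A : Type v} {B : Type w} [AddCommGroup A] [Module k A] [AddCommGroup B]
    [Module k B] {α : Representation k (G k) A} {β : Representation k (G k) B} {n : ℤ} {a : A}
    {b : B} (ha : IsWt α n a) (hb : IsWt β n b) : IsWt (α.prod β) n (a, b) := by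
  intro z
  change (α (tor z) a, β (tor z) b) = _
  rw [ha z, hb z]
  rfl

lemma combine {A B : Rp k} (hA : Nice k A) (hB : Nice k B) {α : A.V →ₗ[k] V} {β : B.V →ₗ[k] V}
    (hα : IsEquiv A.ρ ρ α) (hβ : IsEquiv B.ρ ρ β) : ∃ (T : Rp k) (θ : T.V →ₗ[k] V), Nice k T ∧
      IsEquiv T.ρ ρ θ ∧ (∀ x, α x ∈ LinearMap.range θ) ∧ (∀ x, β x ∈ LinearMap.range θ) ∧
      (∀ a b, ∃ x, θ x = α a + β b) ∧
      (∀ n v, Hit A α n v → Hit T θ n v) ∧ (∀ n v, Hit B β n v → Hit T θ n v) := by
  refine ⟨Rp.prod k A B, α ∘ₗ LinearMap.fst k A.V B.V + β ∘ₗ LinearMap.snd k A.V B.V,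
    Nice.prod A B hA hB, ?_, ?_, ?_, ?_, ?_, ?_⟩
  · rintro g ⟨a, b⟩
    change α (A.ρ g a) + β (B.ρ g b) = ρ g (α a + β b)
    rw [hα, hβ, map_add]
  · intro x
    exact ⟨(x, (0 : B.V)), by change α x + β 0 = α x; rw [map_zero, add_zero]⟩
  · intro x
    exact ⟨((0 : A.V), x), by change α 0 + β x = β x; rw [map_zero, zero_add]⟩
  · intro a b
    exact ⟨(a, b), rfl⟩
  · rintro n v ⟨t, h1, h2, h3⟩
    refine ⟨(t, (0 : B.V)), fun a => ?_, isWt_pair h2 (isWt_zero _), ?_⟩
    · change (A.ρ (up a) t, B.ρ (up a) 0) = (t, 0)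
      rw [h1 a, map_zero]
    · change α t + β 0 = v
      rw [map_zero, add_zero, h3]
  · rintro n v ⟨t, h1, h2, h3⟩
    refine ⟨((0 : A.V), t), fun a => ?_, isWt_pair (isWt_zero _) h2, ?_⟩
    · change (A.ρ (up a) 0, B.ρ (up a) t) = (0, t)
      rw [h1 a, map_zero]
    · change α 0 + β t = v
      rw [map_zero, zero_add, h3]

/-- elements in the image of some map from a sum of tensor powers -/
def Cvr (ρ : Representation k (G k) V) (x : V) : Prop :=
  ∃ (T : Rp k) (θ : T.V →ₗ[k] V), Nice k T ∧ IsEquiv T.ρ ρ θ ∧ x ∈ LinearMap.range θ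

lemma Cvr.zero : Cvr ρ 0 :=
  ⟨Tn k 0, 0, Nice.tn 0, fun g v => by simp, Submodule.zero_mem _⟩

lemma Cvr.add {x y : V} (hx : Cvr ρ x) (hy : Cvr ρ y) : Cvr ρ (x + y) := by
  obtain ⟨A, α, hA, hα, a, rfl⟩ := hx
  obtain ⟨B, β, hB, hβ, b, rfl⟩ := hy
  obtain ⟨T, θ, hT, hθ, -, -, h, -, -⟩ := combine hA hB hα hβ
  exact ⟨T, θ, hT, hθ, h a b⟩

theorem cvr_all (hρ : IsRational ρ) (hG : GoodIn hρ ⊤) (x : V) : Cvr ρ x := by
  have key : ∀ n : ℕ, ∀ x ∈ Pn hρ n, Cvr ρ x := by
    intro n
    induction n with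
    | zero =>
      intro x hx
      rw [Pn_zero, Submodule.mem_bot] at hx
      rw [hx]; exact Cvr.zero
    | succ n ih =>
      intro x hx
      obtain ⟨d, hd⟩ := sum_wt hρ x
      rw [(hd d le_rfl).2]
      apply Finset.sum_induction _ (Cvr ρ) (fun _ _ => Cvr.add) Cvr.zero
      intro l _
      set y := wt hρ l x with hy
      have hy1 : y ∈ Pn hρ (n + 1) := Pn_wt_mem hρ hx l
      have hy2 : IsWt ρ l y := wt_isWt hρ _ _
      by_cases hl : ∃ i : ℕ, i ≤ n ∧ l = n - 2 * i
      · obtain ⟨i, hi, hli⟩ := hl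
        have hE : IsWt ρ n (Eo hρ i y) := by
          have := Eo_isWt hρ hy2 i
          rwa [hli, show (n : ℤ) - 2 * i + 2 * i = n by ring] at this
        have hU := Pn_isU hρ (Pn_Eo hρ hy1 i) hE
        obtain ⟨θ, hθ, hθv⟩ := exists_theta n hρ hG hU hE
        obtain ⟨w, -, w2, w3, w4⟩ := tn_good (k := k) n n (tv k n) trivial
          (isU_mem _ (tv_isU n) (tv_isWt n)) (tv_isWt n) i hi
        have h1 : y - θ w ∈ Pn hρ n := by
          apply mem_Pn_of_Eo hρ hi ((Pn hρ _).sub_mem hy1 (map_Pn (tn_rational n) hρ hθ w2))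
          · rw [← hli] at w3 ⊢
            exact hy2.sub (w3.map hθ)
          · rw [map_sub, ← map_Eo (tn_rational n) hρ hθ, w4, hθv, sub_self]
        have h2 : y = θ w + (y - θ w) := by abel
        rw [h2]
        exact Cvr.add ⟨Tn k n, θ, Nice.tn n, hθ, w, rfl⟩ (ih _ h1)
      · push Not at hl
        exact ih _ (mem_Pn_of_ne hρ hy1 hy2 hl)
  obtain ⟨n, hn⟩ := exists_Pn hρ x
  exact key n x hn

/-- a finite family of invariants and of elements can be covered at the same time -/
theorem exists_cover (hρ : IsRational ρ) (hG : GoodIn hρ ⊤) {ι : Type*} (s : Finset ι)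
    (m : ι → V) (d : ι → ℕ) (hm : ∀ l ∈ s, IsU ρ (m l) ∧ IsWt ρ (d l) (m l)) (t : Finset V) :
    ∃ (T : Rp k) (θ : T.V →ₗ[k] V), Nice k T ∧ IsEquiv T.ρ ρ θ ∧
      (∀ l ∈ s, Hit T θ (d l) (m l)) ∧ ∀ x ∈ t, x ∈ LinearMap.range θ := by
  classical
  have h1 : ∃ (T : Rp k) (θ : T.V →ₗ[k] V), Nice k T ∧ IsEquiv T.ρ ρ θ ∧
      (∀ l ∈ s, Hit T θ (d l) (m l)) := by
    induction s using Finset.induction_on with
    | empty => exact ⟨Tn k 0, 0, Nice.tn 0, fun g v => by simp, fun l hl => by simp at hl⟩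
    | insert a s ha ih =>
      obtain ⟨A, α, hA, hα, hh⟩ := ih fun l hl => hm l (mem_insert_of_mem hl)
      have hma := hm a (mem_insert_self _ _)
      obtain ⟨β, hβ, hβv⟩ := exists_theta (d a) hρ hG hma.1 hma.2
      obtain ⟨T, θ, hT, hθ, -, -, -, h3, h4⟩ := combine hA (Nice.tn (d a)) hα hβ
      refine ⟨T, θ, hT, hθ, fun l hl => ?_⟩
      rcases mem_insert.1 hl with rfl | hl
      · exact h4 _ _ ⟨tv k (d l), tv_isU _, tv_isWt _, hβv⟩
      · exact h3 _ _ (hh l hl)
  have h2 : ∃ (T : Rp k) (θ : T.V →ₗ[k] V), Nice k T ∧ IsEquiv T.ρ ρ θ ∧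
      ∀ x ∈ t, x ∈ LinearMap.range θ := by
    induction t using Finset.induction_on with
    | empty => exact ⟨Tn k 0, 0, Nice.tn 0, fun g v => by simp, fun l hl => by simp at hl⟩
    | insert a t ha ih =>
      obtain ⟨A, α, hA, hα, hh⟩ := ih
      obtain ⟨B, β, hB, hβ, b, hb⟩ := cvr_all hρ hG a
      obtain ⟨T, θ, hT, hθ, h3, h4, -, -, -⟩ := combine hA hB hα hβ
      refine ⟨T, θ, hT, hθ, fun l hl => ?_⟩
      rcases mem_insert.1 hl with rfl | hl
      · rw [← hb]; exact h4 b
      · obtain ⟨y, hy⟩ := hh l hl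
        rw [← hy]; exact h3 y
  obtain ⟨A, α, hA, hα, hh⟩ := h1
  obtain ⟨B, β, hB, hβ, hh'⟩ := h2
  obtain ⟨T, θ, hT, hθ, -, h4, -, h5, -⟩ := combine hA hB hα hβ
  refine ⟨T, θ, hT, hθ, fun l hl => h5 _ _ (hh l hl), fun x hx => ?_⟩
  obtain ⟨b, hb⟩ := hh' x hx
  rw [← hb]; exact h4 b

end cover

/-! ### tensor products -/

section tensor

variable {S : Type v} [AddCommGroup S] [Module k S] {σ : Representation k (G k) S}

lemma good_of_equiv {V : Type v} {W : Type w} [AddCommGroup V] [Module k V] [AddCommGroup W]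
    [Module k W] {ρ : Representation k (G k) V} {τ : Representation k (G k) W}
    (e : V ≃ₗ[k] W) (he : ∀ g v, e (ρ g v) = τ g (e v))
    (h : ∃ hρ : IsRational ρ, GoodIn hρ ⊤) : ∃ hτ : IsRational τ, GoodIn hτ ⊤ := by
  obtain ⟨hρ, hG⟩ := h
  have hτ : IsRational τ := hρ.of_surj (φ := e.toLinearMap) he e.surjective
  exact ⟨hτ, GoodIn.equiv hρ hτ e he hG⟩

lemma two_tensor {V : Type w} [AddCommGroup V] [Module k V] {ρ : Representation k (G k) V}
    (h : ∃ h : IsRational (ρ.tprod σ), GoodIn h ⊤) :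
    ∃ h : IsRational ((two ρ).tprod σ), GoodIn h ⊤ := by
  obtain ⟨h1, h2⟩ := h
  refine good_of_equiv (TensorProduct.prodLeft k k V V S).symm ?_
    ⟨isRational_two h1, GoodIn.two h1 h2⟩
  intro g v
  rw [LinearEquiv.symm_apply_eq]
  have key : ∀ x : (V × V) ⊗[k] S,
      TensorProduct.prodLeft k k V V S ((Representation.tprod (two ρ) σ) g x) =
      two (ρ.tprod σ) g (TensorProduct.prodLeft k k V V S x) := by
    intro x
    induction x using TensorProduct.induction_on with
    | zero => simp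
    | add x y hx hy => simp only [map_add, hx, hy]
    | tmul t s =>
      obtain ⟨t, t'⟩ := t
      rw [Representation.tprod_apply, TensorProduct.map_tmul, two_apply,
        TensorProduct.prodLeft_tmul, TensorProduct.prodLeft_tmul, two_apply,
        Representation.tprod_apply, TensorProduct.map_tmul, TensorProduct.map_tmul]
      simp only [TensorProduct.add_tmul, TensorProduct.smul_tmul']
  have h3 := key ((TensorProduct.prodLeft k k V V S).symm v)
  rw [LinearEquiv.apply_symm_apply] at h3
  exact h3.symm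

lemma prod_tensor {A B : Type w} [AddCommGroup A] [Module k A] [AddCommGroup B] [Module k B]
    {α : Representation k (G k) A} {β : Representation k (G k) B}
    (ha : ∃ h : IsRational (α.tprod σ), GoodIn h ⊤)
    (hb : ∃ h : IsRational (β.tprod σ), GoodIn h ⊤) :
    ∃ h : IsRational ((α.prod β).tprod σ), GoodIn h ⊤ := by
  obtain ⟨a1, a2⟩ := ha
  obtain ⟨b1, b2⟩ := hb
  refine good_of_equiv (TensorProduct.prodLeft k k A B S).symm ?_
    ⟨isRational_prod a1 b1, GoodIn.prod a1 b1 _ a2 b2⟩
  intro g v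
  rw [LinearEquiv.symm_apply_eq]
  have key : ∀ x : (A × B) ⊗[k] S,
      TensorProduct.prodLeft k k A B S ((Representation.tprod (α.prod β) σ) g x) =
      ((α.tprod σ).prod (β.tprod σ)) g (TensorProduct.prodLeft k k A B S x) := by
    intro x
    induction x using TensorProduct.induction_on with
    | zero => simp only [map_zero]
    | add x y hx hy => simp only [map_add, hx, hy]
    | tmul t s =>
      obtain ⟨t, t'⟩ := t
      rw [Representation.tprod_apply, TensorProduct.map_tmul, TensorProduct.prodLeft_tmul]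
      change (TensorProduct.prodLeft k k A B S) ((α g t, β g t') ⊗ₜ[k] (σ g s)) =
        (TensorProduct.map (α g) (σ g) (t ⊗ₜ[k] s), TensorProduct.map (β g) (σ g) (t' ⊗ₜ[k] s))
      rw [TensorProduct.prodLeft_tmul, TensorProduct.map_tmul, TensorProduct.map_tmul]
  have h3 := key ((TensorProduct.prodLeft k k A B S).symm v)
  rw [LinearEquiv.apply_symm_apply] at h3
  exact h3.symm

lemma trivial_tensor (hσ : IsRational σ) (hG : GoodIn hσ ⊤) :
    ∃ h : IsRational ((Representation.trivial k (G k) k).tprod σ), GoodIn h ⊤ := by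
  refine good_of_equiv (TensorProduct.lid k S).symm ?_ ⟨hσ, hG⟩
  intro g v
  rw [TensorProduct.lid_symm_apply, TensorProduct.lid_symm_apply, Representation.tprod_apply,
    TensorProduct.map_tmul, Representation.trivial_apply]

lemma Nice.tensor {T : Rp k} (h : Nice k T) (hσ : IsRational σ) (hG : GoodIn hσ ⊤) :
    ∃ h : IsRational (T.ρ.tprod σ), GoodIn h ⊤ := by
  induction h with
  | tn n =>
    induction n with
    | zero => exact trivial_tensor hσ hG
    | succ n ih => exact two_tensor ih
  | prod A B ha hb iha ihb => exact prod_tensor iha ihb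

end tensor

/-! ### duals -/

section dual

lemma dual_apply' {V : Type v} [AddCommGroup V] [Module k V] (ρ : Representation k (G k) V)
    (g : G k) (f : Module.Dual k V) (v : V) : ρ.dual g f v = f (ρ g⁻¹ v) := rfl

lemma two_dual {V : Type v} [AddCommGroup V] [Module k V] {ρ : Representation k (G k) V}
    (h : ∃ h : IsRational ρ.dual, GoodIn h ⊤) : ∃ h : IsRational (two ρ).dual, GoodIn h ⊤ := by
  obtain ⟨h1, h2⟩ := h
  let e0 : (Module.Dual k V × Module.Dual k V) →ₗ[k] Module.Dual k (V × V) :=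
    { toFun := fun q => LinearMap.coprod (-q.2) q.1
      map_add' := fun q q' => by
        apply LinearMap.ext; rintro ⟨a, b⟩
        change (-(q.2 + q'.2)) a + (q.1 + q'.1) b = (-q.2 a + q.1 b) + (-q'.2 a + q'.1 b)
        rw [LinearMap.neg_apply, LinearMap.add_apply, LinearMap.add_apply]; ring
      map_smul' := fun c q => by
        apply LinearMap.ext; rintro ⟨a, b⟩
        change (-(c • q.2)) a + (c • q.1) b = c * (-q.2 a + q.1 b)
        rw [LinearMap.neg_apply, LinearMap.smul_apply, LinearMap.smul_apply, smul_eq_mul,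
          smul_eq_mul]; ring }
  have he0 : ∀ (q : Module.Dual k V × Module.Dual k V) (a b : V),
    e0 q (a, b) = -q.2 a + q.1 b := fun q a b => rfl
  have hbij : Function.Bijective e0 := by
    constructor
    · rw [injective_iff_map_eq_zero]
      rintro ⟨x, y⟩ h
      have hx : x = 0 := by
        apply LinearMap.ext; intro b
        have := LinearMap.congr_fun h ((0 : V), b)
        rw [he0] at this
        simpa using this
      have hy : y = 0 := by
        apply LinearMap.ext; intro b
        have := LinearMap.congr_fun h (b, (0 : V))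
        rw [he0] at this
        simpa using this
      rw [hx, hy]; rfl
    · intro f
      refine ⟨(f ∘ₗ LinearMap.inr k V V, -(f ∘ₗ LinearMap.inl k V V)), ?_⟩
      apply LinearMap.ext; rintro ⟨a, b⟩
      rw [he0]
      simp only [LinearMap.neg_apply, neg_neg, LinearMap.comp_apply, LinearMap.inl_apply,
        LinearMap.inr_apply]
      rw [← map_add]
      simp
  refine good_of_equiv (LinearEquiv.ofBijective e0 hbij) ?_ ⟨isRational_two h1, GoodIn.two h1 h2⟩
  rintro g ⟨x, y⟩
  apply LinearMap.ext; rintro ⟨a, b⟩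
  change e0 (two ρ.dual g (x, y)) (a, b) = e0 (x, y) (two ρ g⁻¹ (a, b))
  rw [two_apply, two_apply, he0, he0, inv_entries]
  simp only [LinearMap.add_apply, LinearMap.smul_apply, dual_apply', map_add, map_smul,
    smul_eq_mul, Matrix.of_apply, Matrix.cons_val', Matrix.cons_val_zero, Matrix.cons_val_one,
    Matrix.cons_val_fin_one]
  ring

lemma prod_dual {A B : Type v} [AddCommGroup A] [Module k A] [AddCommGroup B] [Module k B]
    {α : Representation k (G k) A} {β : Representation k (G k) B}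
    (ha : ∃ h : IsRational α.dual, GoodIn h ⊤) (hb : ∃ h : IsRational β.dual, GoodIn h ⊤) :
    ∃ h : IsRational (α.prod β).dual, GoodIn h ⊤ := by
  obtain ⟨a1, a2⟩ := ha
  obtain ⟨b1, b2⟩ := hb
  refine good_of_equiv (LinearMap.coprodEquiv k (M := A) (M₂ := B) (M₃ := k)) ?_
    ⟨isRational_prod a1 b1, GoodIn.prod a1 b1 _ a2 b2⟩
  rintro g ⟨x, y⟩
  apply LinearMap.ext; rintro ⟨a, b⟩
  rfl

lemma trivial_dual {V : Type v} [AddCommGroup V] [Module k V] :
    ∃ h : IsRational (Representation.trivial k (G k) V).dual, GoodIn h ⊤ := by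
  have h : IsRational (Representation.trivial k (G k) V).dual := fun f => IsReg.const f
  exact ⟨h, good_trivial h (fun g f => rfl)⟩

lemma Nice.dual {T : Rp k} (h : Nice k T) : ∃ h : IsRational T.ρ.dual, GoodIn h ⊤ := by
  induction h with
  | tn n =>
    induction n with
    | zero => exact trivial_dual
    | succ n ih => exact two_dual ih
  | prod A B ha hb iha ihb => exact prod_dual iha ihb

end dual

end Pool.Agent.Helper66.TR
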