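import Pool.Agent.Helper66.TR.Good

/-!
# Tensoring with the natural representation
-/

set_option autoImplicit false
set_option linter.unusedSectionVars false

namespace Pool.Agent.Helper66.TR

open Finset

section reg

variable {k : Type*} [Field k] {V W : Type*} [AddCommGroup V] [Module k V]
  [AddCommGroup W] [Module k W]

/-- regular functions on the group with values in `V` -/
def IsReg (F : G k → V) : Prop :=
  ∃ (m : ℕ) (f : Fin m → MvPolynomial (Fin 2 × Fin 2) k) (w : Fin m → V),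
    ∀ g : G k, F g = ∑ i, (MvPolynomial.eval (fun p => g.1 p.1 p.2) (f i)) • w i

lemma IsReg.congr {F F' : G k → V} (h : IsReg F) (e : ∀ g, F' g = F g) : IsReg F' := by
  obtain ⟨m, f, w, h⟩ := h
  exact ⟨m, f, w, fun g => by rw [e, h]⟩

lemma IsReg.map {F : G k → V} (h : IsReg F) (φ : V →ₗ[k] W) : IsReg (fun g => φ (F g)) := by
  obtain ⟨m, f, w, h⟩ := h
  exact ⟨m, f, fun i => φ (w i), fun g => by
    beta_reduce; rw [h, map_sum]; simp only [map_smul]⟩

lemma IsReg.smul {F : G k → V} (h : IsReg F) (P : MvPolynomial (Fin 2 × Fin 2) k) :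
    IsReg (fun g => MvPolynomial.eval (fun p => g.1 p.1 p.2) P • F g) := by
  obtain ⟨m, f, w, h⟩ := h
  refine ⟨m, fun i => P * f i, w, fun g => ?_⟩
  beta_reduce
  rw [h, smul_sum]
  apply sum_congr rfl
  intro i _
  rw [map_mul, smul_smul]

lemma IsReg.entry {F : G k → V} (h : IsReg F) (i j : Fin 2) : IsReg (fun g => g.1 i j • F g) :=
  (h.smul (MvPolynomial.X (i, j))).congr (fun g => by rw [MvPolynomial.eval_X])

lemma IsReg.add {F F' : G k → V} (h : IsReg F) (h' : IsReg F') : IsReg (fun g => F g + F' g) := by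
  obtain ⟨m, f, w, h⟩ := h
  obtain ⟨m', f', w', h'⟩ := h'
  refine ⟨m + m', Fin.append f f', Fin.append w w', fun g => ?_⟩
  beta_reduce
  rw [h, h', Fin.sum_univ_add]
  simp

lemma IsReg.const (v : V) : IsReg (fun _ : G k => v) :=
  ⟨1, fun _ => 1, fun _ => v, fun g => by simp⟩

lemma IsReg.sum {ι : Type*} (s : Finset ι) {F : ι → G k → V} (h : ∀ i ∈ s, IsReg (F i)) :
    IsReg (fun g => ∑ i ∈ s, F i g) := by
  classical
  induction s using Finset.induction_on with
  | empty => exact (IsReg.const (0 : V)).congr (fun a => by simp)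
  | insert i s hi ih =>
    refine ((h i (mem_insert_self _ _)).add
      (ih (fun j hj => h j (mem_insert_of_mem hj)))).congr (fun a => ?_)
    rw [sum_insert hi]

lemma isRational_iff (ρ : Representation k (G k) V) :
    IsRational ρ ↔ ∀ v, IsReg (fun g => ρ g v) := Iff.rfl

lemma isRational_prod {ρ : Representation k (G k) V} {σ : Representation k (G k) W}
    (hρ : IsRational ρ) (hσ : IsRational σ) : IsRational (ρ.prod σ) := by
  rw [isRational_iff] at *
  rintro ⟨v, w⟩
  refine (((hρ v).map (LinearMap.inl k V W)).add ((hσ w).map (LinearMap.inr k V W))).congr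
    (fun g => ?_)
  change (ρ g v, σ g w) = _
  simp

lemma isRational_trivial : IsRational (Representation.trivial k (G k) V) :=
  fun v => IsReg.const v

/-- the tensor product with the natural representation `k ^ 2` -/
def two (ρ : Representation k (G k) V) : Representation k (G k) (V × V) where
  toFun g :=
    { toFun := fun p => (g.1 0 0 • ρ g p.1 + g.1 0 1 • ρ g p.2,
        g.1 1 0 • ρ g p.1 + g.1 1 1 • ρ g p.2)
      map_add' := fun p q => by
        simp only [Prod.fst_add, Prod.snd_add, map_add, Prod.mk_add_mk, Prod.mk.injEq]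
        constructor <;> module
      map_smul' := fun c p => by
        simp only [Prod.smul_fst, Prod.smul_snd, map_smul, RingHom.id_apply, Prod.smul_mk,
          Prod.mk.injEq]
        constructor <;> module }
  map_one' := by
    apply LinearMap.ext
    rintro ⟨v, w⟩
    simp
  map_mul' g h := by
    apply LinearMap.ext
    rintro ⟨v, w⟩
    simp only [Matrix.SpecialLinearGroup.coe_mul, Matrix.mul_apply, Fin.sum_univ_two, map_mul,
      LinearMap.coe_mk, AddHom.coe_mk, Module.End.mul_apply, map_add, map_smul, Prod.mk.injEq]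
    constructor <;> module

lemma two_apply (ρ : Representation k (G k) V) (g : G k) (v w : V) :
    two ρ g (v, w) = (g.1 0 0 • ρ g v + g.1 0 1 • ρ g w, g.1 1 0 • ρ g v + g.1 1 1 • ρ g w) := rfl

lemma isRational_two {ρ : Representation k (G k) V} (hρ : IsRational ρ) : IsRational (two ρ) := by
  rw [isRational_iff] at *
  rintro ⟨v, w⟩
  have h1 := (((hρ v).entry 0 0).add ((hρ w).entry 0 1)).map (LinearMap.inl k V V)
  have h2 := (((hρ v).entry 1 0).add ((hρ w).entry 1 1)).map (LinearMap.inr k V V)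
  refine (h1.add h2).congr (fun g => ?_)
  rw [two_apply]
  simp

lemma two_isEquiv {ρ : Representation k (G k) V} {σ : Representation k (G k) W}
    {φ : V →ₗ[k] W} (hφ : IsEquiv ρ σ φ) : IsEquiv (two ρ) (two σ) (φ.prodMap φ) := by
  rintro g ⟨v, w⟩
  rw [two_apply, LinearMap.prodMap_apply, LinearMap.prodMap_apply, two_apply]
  simp only [map_add, map_smul, hφ g v, hφ g w]

end reg

variable {k : Type*} [Field k] [Infinite k] {V : Type*} [AddCommGroup V] [Module k V]
  {ρ : Representation k (G k) V}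

lemma two_isWt {n : ℤ} {v w : V} (hv : IsWt ρ (n - 1) v) (hw : IsWt ρ (n + 1) w) :
    IsWt (two ρ) n (v, w) := by
  intro z
  rw [two_apply, hv z, hw z]
  have e1 : (tor z).1 0 0 = z := rfl
  have e2 : (tor z).1 0 1 = 0 := rfl
  have e3 : (tor z).1 1 0 = 0 := rfl
  have e4 : (tor z).1 1 1 = ((z⁻¹ : kˣ) : k) := rfl
  rw [e1, e2, e3, e4, zero_smul, zero_smul, add_zero, zero_add, smul_smul, smul_smul,
    ← Units.val_mul, ← Units.val_mul, Prod.smul_mk]
  congr 3
  · rw [zpow_sub_one]; group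
  · rw [zpow_add_one]; group

lemma isWt_of_two {n : ℤ} {v w : V} (h : IsWt (two ρ) n (v, w)) :
    IsWt ρ (n - 1) v ∧ IsWt ρ (n + 1) w := by
  have e1 : ∀ z : kˣ, (tor z).1 0 0 = z := fun _ => rfl
  have e2 : ∀ z : kˣ, (tor z).1 0 1 = 0 := fun _ => rfl
  have e3 : ∀ z : kˣ, (tor z).1 1 0 = 0 := fun _ => rfl
  have e4 : ∀ z : kˣ, (tor z).1 1 1 = ((z⁻¹ : kˣ) : k) := fun _ => rfl
  constructor
  · intro z
    have h1 := congrArg Prod.fst (h z)
    rw [two_apply, e1, e2, zero_smul, add_zero] at h1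
    have h2 : ((z : kˣ) : k) • ρ (tor z) v = ((z ^ n : kˣ) : k) • v := h1
    have h3 : ρ (tor z) v = ((z⁻¹ : kˣ) : k) • ((z : kˣ) : k) • ρ (tor z) v := by
      rw [smul_smul, Units.inv_mul, one_smul]
    rw [h3, h2, smul_smul, ← Units.val_mul]
    congr 2
    rw [zpow_sub_one]; group
  · intro z
    have h1 := congrArg Prod.snd (h z)
    rw [two_apply, e3, e4, zero_smul, zero_add] at h1
    have h2 : ((z⁻¹ : kˣ) : k) • ρ (tor z) w = ((z ^ n : kˣ) : k) • w := h1
    have h3 : ρ (tor z) w = ((z : kˣ) : k) • ((z⁻¹ : kˣ) : k) • ρ (tor z) w := by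
      rw [smul_smul, Units.mul_inv, one_smul]
    rw [h3, h2, smul_smul, ← Units.val_mul]
    congr 2
    rw [zpow_add_one]; group

lemma two_up (a : k) (v w : V) :
    two ρ (up a) (v, w) = (ρ (up a) v + a • ρ (up a) w, ρ (up a) w) := by
  rw [two_apply]
  have e1 : (up a).1 0 0 = 1 := rfl
  have e2 : (up a).1 0 1 = a := rfl
  have e3 : (up a).1 1 0 = 0 := rfl
  have e4 : (up a).1 1 1 = 1 := rfl
  rw [e1, e2, e3, e4, zero_smul, one_smul, one_smul, zero_add]

lemma two_Eo (hρ : IsRational ρ) (j : ℕ) (v w : V) :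
    Eo (isRational_two hρ) j (v, w) =
      (Eo hρ j v + (if j = 0 then 0 else Eo hρ (j - 1) w), Eo hρ j w) := by
  have h1 := ((Eo_spec hρ v).add (Eo_spec hρ w).shift).map (LinearMap.inl k V V)
  have h2 := (Eo_spec hρ w).map (LinearMap.inr k V V)
  have h3 := (Eo_spec (isRational_two hρ) (v, w)).unique ((h1.add h2).congr (fun a => by
    rw [two_up]
    simp))
  have h4 := congrFun h3 j
  rw [h4]
  simp

lemma two_wt (hρ : IsRational ρ) (n : ℤ) (v w : V) :
    wt (isRational_two hρ) n (v, w) = (wt hρ (n - 1) v, wt hρ (n + 1) w) := by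
  have h1 : wt (isRational_two hρ) n (v, w) = wt (isRational_two hρ) n (v, 0) +
      wt (isRational_two hρ) n (0, w) := by
    rw [← map_add]; simp
  -- the components
  have hv : ∀ v : V, wt (isRational_two hρ) n (v, 0) = (wt hρ (n - 1) v, 0) := by
    intro v
    have a1 := ((wt_spec hρ v).shift 1).map (LinearMap.inl k V V)
    have a2 := (wt_spec (isRational_two hρ) (v, 0)).unique (a1.congr (fun z => by
      rw [two_apply, map_zero, smul_zero, smul_zero, add_zero, add_zero]
      have e1 : (tor z).1 0 0 = z := rfl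
      have e3 : (tor z).1 1 0 = 0 := rfl
      rw [e1, e3, zero_smul, zpow_one]
      simp))
    have a3 := congrFun a2 n
    simpa using a3
  have hw : ∀ w : V, wt (isRational_two hρ) n (0, w) = (0, wt hρ (n + 1) w) := by
    intro w
    have a1 := ((wt_spec hρ w).shift (-1)).map (LinearMap.inr k V V)
    have a2 := (wt_spec (isRational_two hρ) (0, w)).unique (a1.congr (fun z => by
      rw [two_apply, map_zero, smul_zero, smul_zero, zero_add, zero_add]
      have e1 : (tor z).1 0 1 = 0 := rfl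
      have e3 : (tor z).1 1 1 = ((z⁻¹ : kˣ) : k) := rfl
      rw [e1, e3, zero_smul, zpow_neg, zpow_one]
      simp))
    have a3 := congrFun a2 n
    simpa using a3
  rw [h1, hv, hw]
  simp

lemma two_Pn (hρ : IsRational ρ) {n : ℕ} {v w : V} (hv : v ∈ Pn hρ n) (hw : w ∈ Pn hρ n) :
    (v, w) ∈ Pn (isRational_two hρ) (n + 1) := by
  intro g l hl
  have h1 : g.1 0 0 • ρ g v + g.1 0 1 • ρ g w ∈ Pn hρ n :=
    (Pn hρ n).add_mem ((Pn hρ n).smul_mem _ (Pn_stable hρ n g v hv))
      ((Pn hρ n).smul_mem _ (Pn_stable hρ n g w hw))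
  have h2 : g.1 1 0 • ρ g v + g.1 1 1 • ρ g w ∈ Pn hρ n :=
    (Pn hρ n).add_mem ((Pn hρ n).smul_mem _ (Pn_stable hρ n g v hv))
      ((Pn hρ n).smul_mem _ (Pn_stable hρ n g w hw))
  push_cast at hl
  rw [two_apply, two_wt hρ, Pn_wt hρ h1 (by omega), Pn_wt hρ h2 (by omega)]
  rfl

/-- vectors of the first kind -/
lemma two_good1 (hρ : IsRational ρ) (hG : GoodIn hρ ⊤) {n : ℕ} {v : V} (hU : IsU ρ v)
    (hw : IsWt ρ (n - 1) v) {i : ℕ} (hi : i ≤ n) :
    ∃ w : V × V, w ∈ Pn (isRational_two hρ) (n + 1) ∧ IsWt (two ρ) (n - 2 * i) w ∧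
      Eo (isRational_two hρ) i w = (v, 0) := by
  rcases Nat.eq_zero_or_pos n with h0 | h0
  · subst h0
    have : v = 0 := isU_neg hρ hU hw (by norm_num)
    subst this
    exact ⟨0, Submodule.zero_mem _, isWt_zero _, map_zero _⟩
  obtain ⟨m, rfl⟩ : ∃ m, n = m + 1 := ⟨n - 1, by omega⟩
  have hw' : IsWt ρ m v := by
    rwa [show (((m + 1 : ℕ) : ℤ) - 1) = m by push_cast; ring] at hw
  have hvm : v ∈ Pn hρ (m + 1) := isU_mem hρ hU hw'
  by_cases him : i ≤ m
  · obtain ⟨w, -, w2, w3, w4⟩ := hG m v trivial hvm hw' i him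
    refine ⟨(w, 0), two_Pn hρ w2 (Submodule.zero_mem _), two_isWt ?_ (isWt_zero _), ?_⟩
    · rwa [show (((m + 1 : ℕ) : ℤ) - 2 * i - 1) = m - 2 * i by push_cast; ring]
    · rw [two_Eo hρ, w4, map_zero, map_zero, ite_self, add_zero]
  · have hi2 : i = m + 1 := by omega
    subst hi2
    obtain ⟨w, -, w2, w3, w4⟩ := hG m v trivial hvm hw' m le_rfl
    refine ⟨(0, w), two_Pn hρ (Submodule.zero_mem _) w2, two_isWt (isWt_zero _) ?_, ?_⟩
    · rwa [show (((m + 1 : ℕ) : ℤ) - 2 * ((m + 1 : ℕ) : ℤ) + 1) = m - 2 * m by push_cast; ring]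
    · rw [two_Eo hρ, if_neg (by omega), Nat.add_sub_cancel, w4, map_zero, zero_add,
        Eo_eq_zero hρ w2 w3 (by push_cast; omega)]

/-- the tensor product of a good module with the natural representation is good -/
theorem GoodIn.two (hρ : IsRational ρ) (hG : GoodIn hρ ⊤) : GoodIn (isRational_two hρ) ⊤ := by
  rintro n ⟨s, s'⟩ - hvn hvw i hi
  obtain ⟨hs, hs'⟩ := isWt_of_two hvw
  have hU := Pn_isU (isRational_two hρ) hvn hvw
  have hU1 : IsU ρ s' := fun a => by
    have h1 := congrArg Prod.snd (hU a)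
    rw [two_up] at h1
    exact h1
  -- the second component
  have hs'2 : s' ∈ Pn hρ (n + 1 + 1) := isU_mem hρ hU1 (by push_cast; exact hs')
  obtain ⟨w, -, w2, w3, w4⟩ := hG (n + 1) s' trivial hs'2 (by push_cast; exact hs') i (by omega)
  obtain ⟨u, -, u2, u3, u4⟩ := hG (n + 1) s' trivial hs'2 (by push_cast; exact hs') (i + 1)
    (by omega)
  have hwt : IsWt (Pool.Agent.Helper66.TR.two ρ) (n - 2 * i) (-u, w) := by
    apply two_isWt
    · have := u3.smul (-1)
      rw [neg_smul, one_smul] at this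
      rwa [show (n : ℤ) - 2 * i - 1 = (n + 1 : ℕ) - 2 * (i + 1 : ℕ) by push_cast; ring]
    · rwa [show (n : ℤ) - 2 * i + 1 = (n + 1 : ℕ) - 2 * (i : ℕ) by push_cast; ring]
  have hE : Eo (isRational_two hρ) (i + 1) (-u, w) = 0 := by
    rw [two_Eo hρ, if_neg (by omega), Nat.add_sub_cancel, map_neg, u4, w4,
      Eo_eq_zero hρ w2 w3 (by push_cast; omega)]
    simp
  have hP1 : (-u, w) ∈ Pn (isRational_two hρ) (n + 2 + 1) :=
    two_Pn hρ ((Pn hρ _).neg_mem u2) w2
  have hP2 : (-u, w) ∈ Pn (isRational_two hρ) (n + 1 + 1) := by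
    apply mem_Pn_of_Eo (isRational_two hρ) (i := i + 1) (by omega) hP1 _ hE
    rwa [show (((n + 2 : ℕ) : ℤ) - 2 * ((i + 1 : ℕ) : ℤ)) = n - 2 * i by push_cast; ring]
  have hP3 : (-u, w) ∈ Pn (isRational_two hρ) (n + 1) := by
    apply mem_Pn_of_ne (isRational_two hρ) hP2 hwt
    intro j _ h
    push_cast at h
    omega
  -- the difference
  have hEw : IsWt (Pool.Agent.Helper66.TR.two ρ) n (Eo (isRational_two hρ) i (-u, w)) := by
    have := Eo_isWt (isRational_two hρ) hwt i
    rwa [show (n : ℤ) - 2 * i + 2 * i = n by ring] at this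
  have hd1 : (s, s') - Eo (isRational_two hρ) i (-u, w) ∈ Pn (isRational_two hρ) (n + 1) :=
    (Pn _ _).sub_mem hvn (Pn_Eo _ hP3 i)
  have hd2 := hvw.sub hEw
  obtain ⟨t, ht⟩ : ∃ t, (s, s') - Eo (isRational_two hρ) i (-u, w) = (t, 0) := by
    rw [two_Eo hρ, w4]
    refine ⟨_, Prod.ext rfl ?_⟩
    simp
  rw [ht] at hd1 hd2
  have hUt := Pn_isU (isRational_two hρ) hd1 hd2
  have hUt' : IsU ρ t := fun a => by
    have h1 := congrArg Prod.fst (hUt a)
    rw [two_up, map_zero, smul_zero, add_zero] at h1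
    exact h1
  obtain ⟨x, x1, x2, x3⟩ := two_good1 hρ hG hUt' (isWt_of_two hd2).1 hi
  refine ⟨(-u, w) + x, trivial, (Pn _ _).add_mem hP3 x1, hwt.add x2, ?_⟩
  rw [map_add, x3, ← ht]
  abel

end Pool.Agent.Helper66.TR
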