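import Pool.Agent.Helper66.TR.Coef

/-!
# Weights and divided powers of the raising operator
-/

set_option autoImplicit false
set_option linter.unusedSectionVars false

namespace Pool.Agent.Helper66.TR

open Finset

variable {k : Type*} [Field k] {V W : Type*} [AddCommGroup V] [Module k V] [AddCommGroup W]
  [Module k W]

lemma PolyCo.dilate {φ : k → V} {x : ℕ → V} (h : PolyCo φ x) (c : k) :
    PolyCo (fun a => φ (c * a)) (fun j => c ^ j • x j) := by
  obtain ⟨d, h1, h2⟩ := h
  refine ⟨d, fun j hj => by beta_reduce; rw [h1 j hj, smul_zero], fun a => ?_⟩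
  beta_reduce
  rw [h2]
  apply sum_congr rfl
  intro j _
  rw [smul_smul, mul_pow]
  congr 1
  ring

lemma LauCo.dilate {φ : kˣ → V} {x : ℤ → V} (h : LauCo φ x) (c : kˣ) :
    LauCo (fun a => φ (c * a)) (fun j => ((c ^ j : kˣ) : k) • x j) := by
  obtain ⟨d, h1, h2⟩ := h
  refine ⟨d, fun j hj => by beta_reduce; rw [h1 j hj, smul_zero], fun a => ?_⟩
  beta_reduce
  rw [h2]
  apply sum_congr rfl
  intro j _
  rw [smul_smul, mul_zpow, Units.val_mul]
  congr 1
  ring

lemma LauCo.inv {φ : kˣ → V} {x : ℤ → V} (h : LauCo φ x) :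
    LauCo (fun a => φ a⁻¹) (fun j => x (-j)) := by
  obtain ⟨d, h1, h2⟩ := h
  refine ⟨d, fun j hj => by beta_reduce; rw [h1 _ (by rwa [abs_neg])], fun a => ?_⟩
  beta_reduce
  rw [h2]
  apply sum_equiv (Equiv.neg ℤ)
  · intro i
    rw [mem_Icc, mem_Icc, Equiv.neg_apply]
    constructor <;> rintro ⟨h3, h4⟩ <;> constructor <;> linarith
  · intro i _
    rw [Equiv.neg_apply, neg_neg, zpow_neg, inv_zpow]

/-! ### polynomial curves in the group -/

lemma eval_curve (c : Fin 2 × Fin 2 → Polynomial k) (f : MvPolynomial (Fin 2 × Fin 2) k) (a : k) :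
    (MvPolynomial.aeval c f).eval a = MvPolynomial.eval (fun p => (c p).eval a) f := by
  induction f using MvPolynomial.induction_on with
  | C b => simp
  | add p q hp hq => rw [map_add, Polynomial.eval_add, hp, hq, map_add]
  | mul_X p i hp => rw [map_mul, Polynomial.eval_mul, hp, MvPolynomial.aeval_X, map_mul,
      MvPolynomial.eval_X]

variable {ρ : Representation k (G k) V} {σ : Representation k (G k) W}

lemma isPoly_curve (hρ : IsRational ρ) (v : V) (g : k → G k) (c : Fin 2 × Fin 2 → Polynomial k)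
    (hc : ∀ a i j, (g a).1 i j = (c (i, j)).eval a) : IsPoly (fun a => ρ (g a) v) := by
  obtain ⟨m, f, w, h⟩ := hρ v
  have h1 : IsPoly (fun a => ∑ i, (MvPolynomial.aeval c (f i)).eval a • w i) := by
    apply IsPoly.sum
    intro i _
    exact (IsPoly.const (w i)).psmul _
  refine h1.congr (fun a => ?_)
  rw [h]
  apply sum_congr rfl
  intro i _
  rw [eval_curve]
  congr 2
  congr 1
  funext p
  exact hc a p.1 p.2

lemma isPoly_up (hρ : IsRational ρ) (v : V) : IsPoly (fun a => ρ (up a) v) := by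
  apply isPoly_curve hρ v up (fun p => !![1, Polynomial.X; 0, 1] p.1 p.2)
  intro a i j
  fin_cases i <;> fin_cases j <;> simp [up]

lemma isPoly_lo (hρ : IsRational ρ) (v : V) : IsPoly (fun a => ρ (lo a) v) := by
  apply isPoly_curve hρ v lo (fun p => !![1, 0; Polynomial.X, 1] p.1 p.2)
  intro a i j
  fin_cases i <;> fin_cases j <;> simp [lo]

lemma isLau_tor (hρ : IsRational ρ) (v : V) : IsLau (fun z => ρ (tor z) v) := by
  obtain ⟨m, f, w, h⟩ := hρ v
  have key : ∀ (P : MvPolynomial (Fin 2 × Fin 2) k) (w : V), IsLau (fun z : kˣ =>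
      MvPolynomial.eval (fun p => (tor z).1 p.1 p.2) P • w) := by
    intro P
    induction P using MvPolynomial.induction_on with
    | C b => intro w; exact (IsLau.const (b • w)).congr (fun z => by simp)
    | add p q hp hq =>
      intro w
      exact ((hp w).add (hq w)).congr (fun z => by rw [map_add, add_smul])
    | mul_X p i hp =>
      intro w
      obtain ⟨i, j⟩ := i
      fin_cases i <;> fin_cases j
      · refine ((hp w).shift 1).congr (fun z => ?_)
        simp only [map_mul, MvPolynomial.eval_X, tor, zpow_one, smul_smul]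
        congr 1
        simp
        ring
      · exact (IsLau.const (0 : V)).congr (fun z => by simp [tor])
      · exact (IsLau.const (0 : V)).congr (fun z => by simp [tor])
      · refine ((hp w).shift (-1)).congr (fun z => ?_)
        simp only [map_mul, MvPolynomial.eval_X, tor, zpow_neg, zpow_one, smul_smul]
        congr 1
        simp
        ring
  refine (IsLau.sum univ (fun i _ => key (f i) (w i))).congr (fun z => ?_)
  exact h (tor z)

/-! ### the operators -/

section ops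

variable [Infinite k]

/-- the divided powers of the raising operator: `ρ (up a) v = ∑ j, a ^ j • Eo j v` -/
noncomputable def Eo (hρ : IsRational ρ) (j : ℕ) : V →ₗ[k] V where
  toFun v := (isPoly_up hρ v).choose j
  map_add' v w := by
    have h := ((isPoly_up hρ v).choose_spec.add (isPoly_up hρ w).choose_spec)
    have h2 := (isPoly_up hρ (v + w)).choose_spec.unique (h.congr (fun a => by rw [map_add]))
    exact congrFun h2 j
  map_smul' c v := by
    have h := (isPoly_up hρ v).choose_spec.map (c • LinearMap.id)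
    have h2 := (isPoly_up hρ (c • v)).choose_spec.unique (h.congr (fun a => by simp))
    have h3 := congrFun h2 j
    simpa using h3

/-- the projection to the weight `n` -/
noncomputable def wt (hρ : IsRational ρ) (n : ℤ) : V →ₗ[k] V where
  toFun v := (isLau_tor hρ v).choose n
  map_add' v w := by
    have h := ((isLau_tor hρ v).choose_spec.add (isLau_tor hρ w).choose_spec)
    have h2 := (isLau_tor hρ (v + w)).choose_spec.unique (h.congr (fun a => by rw [map_add]))
    exact congrFun h2 n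
  map_smul' c v := by
    have h := (isLau_tor hρ v).choose_spec.map (c • LinearMap.id)
    have h2 := (isLau_tor hρ (c • v)).choose_spec.unique (h.congr (fun a => by simp))
    have h3 := congrFun h2 n
    simpa using h3

lemma Eo_spec (hρ : IsRational ρ) (v : V) :
    PolyCo (fun a => ρ (up a) v) (fun j => Eo hρ j v) := (isPoly_up hρ v).choose_spec

lemma wt_spec (hρ : IsRational ρ) (v : V) :
    LauCo (fun z => ρ (tor z) v) (fun n => wt hρ n v) := (isLau_tor hρ v).choose_spec

lemma tor_mul (z w : kˣ) : tor z * tor w = tor (z * w) := by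
  apply Subtype.ext
  rw [Matrix.SpecialLinearGroup.coe_mul]
  ext i j
  fin_cases i <;> fin_cases j <;> simp [tor, Matrix.mul_apply, Fin.sum_univ_two, mul_comm]

lemma tor_one : tor (1 : kˣ) = 1 := by
  apply Subtype.ext
  ext i j
  fin_cases i <;> fin_cases j <;> simp [tor]

lemma up_zero : up (0 : k) = 1 := by
  apply Subtype.ext
  ext i j
  fin_cases i <;> fin_cases j <;> simp [up]

lemma lo_zero : lo (0 : k) = 1 := by
  apply Subtype.ext
  ext i j
  fin_cases i <;> fin_cases j <;> simp [lo]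

lemma tor_up (z : kˣ) (a : k) : tor z * up a = up ((z : k) ^ 2 * a) * tor z := by
  apply Subtype.ext
  rw [Matrix.SpecialLinearGroup.coe_mul, Matrix.SpecialLinearGroup.coe_mul]
  ext i j
  fin_cases i <;> fin_cases j <;> simp [tor, up, Matrix.mul_apply, Fin.sum_univ_two]
  field_simp

/-- the Weyl group element -/
def w0 : G k := ⟨!![0, 1; -1, 0], by simp⟩

lemma tor_w0 (z : kˣ) : tor z * w0 = w0 * tor z⁻¹ := by
  apply Subtype.ext
  rw [Matrix.SpecialLinearGroup.coe_mul, Matrix.SpecialLinearGroup.coe_mul]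
  ext i j
  fin_cases i <;> fin_cases j <;> simp [tor, w0, Matrix.mul_apply, Fin.sum_univ_two]

lemma lo_eq (c : k) : lo c * w0 = w0 * up (-1 * c) := by
  apply Subtype.ext
  rw [Matrix.SpecialLinearGroup.coe_mul, Matrix.SpecialLinearGroup.coe_mul]
  ext i j
  fin_cases i <;> fin_cases j <;> simp [lo, up, w0, Matrix.mul_apply, Fin.sum_univ_two]

lemma wt_isWt (hρ : IsRational ρ) (n : ℤ) (v : V) : IsWt ρ n (wt hρ n v) := by
  intro z
  have h1 := (wt_spec hρ v).map (ρ (tor z))
  have h2 := (wt_spec hρ v).dilate z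
  have h3 := h1.unique (h2.congr (fun a => by
    rw [← tor_mul, map_mul]; rfl))
  exact congrFun h3 n

lemma wt_of_isWt (hρ : IsRational ρ) {n : ℤ} {v : V} (h : IsWt ρ n v) (m : ℤ) :
    wt hρ m v = if m = n then v else 0 := by
  have h1 := (wt_spec hρ v).unique ((LauCo.single n v).congr h)
  exact congrFun h1 m

lemma wt_self (hρ : IsRational ρ) {n : ℤ} {v : V} (h : IsWt ρ n v) : wt hρ n v = v := by
  rw [wt_of_isWt hρ h, if_pos rfl]

lemma wt_ne (hρ : IsRational ρ) {n m : ℤ} {v : V} (h : IsWt ρ n v) (hm : m ≠ n) :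
    wt hρ m v = 0 := by
  rw [wt_of_isWt hρ h, if_neg hm]

lemma sum_wt (hρ : IsRational ρ) (v : V) : ∃ d : ℕ, ∀ e : ℕ, d ≤ e →
    (∀ n : ℤ, (e : ℤ) < |n| → wt hρ n v = 0) ∧ v = ∑ n ∈ Icc (-(e : ℤ)) e, wt hρ n v := by
  obtain ⟨d, h⟩ := (wt_spec hρ v).extend
  refine ⟨d, fun e he => ⟨(h e he).1, ?_⟩⟩
  have h1 := (h e he).2 1
  rw [tor_one, map_one] at h1
  simpa using h1

/-- a vector all of whose weight components vanish is zero -/
lemma eq_zero_of_wt (hρ : IsRational ρ) {v : V} (h : ∀ n, wt hρ n v = 0) : v = 0 := by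
  obtain ⟨d, hd⟩ := sum_wt hρ v
  rw [(hd d le_rfl).2]
  exact sum_eq_zero fun n _ => h n

lemma Eo_zero (hρ : IsRational ρ) (v : V) : Eo hρ 0 v = v := by
  obtain ⟨d, h⟩ := (Eo_spec hρ v).extend
  have h1 := (h (d + 1) (by omega)).2 0
  rw [up_zero, map_one, sum_range_succ'] at h1
  simpa using h1.symm

lemma Eo_isWt (hρ : IsRational ρ) {n : ℤ} {v : V} (h : IsWt ρ n v) (j : ℕ) :
    IsWt ρ (n + 2 * j) (Eo hρ j v) := by
  intro z
  have h1 := (Eo_spec hρ v).map (ρ (tor z))
  have h2 := ((Eo_spec hρ v).dilate ((z : k) ^ 2)).map (((z ^ n : kˣ) : k) • LinearMap.id)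
  have h3 := h1.unique (h2.congr (fun a => by
    have e1 : ρ (tor z) (ρ (up a) v) = ρ (tor z * up a) v := by rw [map_mul]; rfl
    have e2 : ρ (up ((z : k) ^ 2 * a) * tor z) v = ρ (up ((z : k) ^ 2 * a)) (ρ (tor z) v) := by
      rw [map_mul]; rfl
    rw [e1, tor_up, e2, h z, map_smul]
    rfl))
  have h4 := congrFun h3 j
  beta_reduce at h4
  rw [h4]
  simp only [LinearMap.smul_apply, LinearMap.id_apply, smul_smul]
  congr 1
  rw [zpow_add, Units.val_mul, ← pow_mul]
  congr 1

/-! ### equivariant maps -/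

/-- equivariant maps -/
def IsEquiv (ρ : Representation k (G k) V) (σ : Representation k (G k) W) (φ : V →ₗ[k] W) : Prop :=
  ∀ g v, φ (ρ g v) = σ g (φ v)

lemma map_wt (hρ : IsRational ρ) (hσ : IsRational σ) {φ : V →ₗ[k] W} (hφ : IsEquiv ρ σ φ) (n : ℤ)
    (v : V) : φ (wt hρ n v) = wt hσ n (φ v) := by
  have h := ((wt_spec hρ v).map φ).unique ((wt_spec hσ (φ v)).congr (fun a => hφ _ _))
  exact congrFun h n

lemma map_Eo (hρ : IsRational ρ) (hσ : IsRational σ) {φ : V →ₗ[k] W} (hφ : IsEquiv ρ σ φ) (n : ℕ)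
    (v : V) : φ (Eo hρ n v) = Eo hσ n (φ v) := by
  have h := ((Eo_spec hρ v).map φ).unique ((Eo_spec hσ (φ v)).congr (fun a => hφ _ _))
  exact congrFun h n

lemma IsWt.map {φ : V →ₗ[k] W} (hφ : IsEquiv ρ σ φ) {n : ℤ} {v : V} (h : IsWt ρ n v) :
    IsWt σ n (φ v) := by
  intro z
  rw [← hφ, h z, map_smul]

lemma Stable.wt_mem (hρ : IsRational ρ) {X : Submodule k V} (hX : Stable ρ X) {v : V} (hv : v ∈ X)
    (n : ℤ) : wt hρ n v ∈ X := by
  have h := (wt_spec hρ v).map X.mkQ
  have h2 := (h.congr (ψ := fun _ => (0 : V ⧸ X)) (fun a => by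
    symm; rw [Submodule.mkQ_apply, Submodule.Quotient.mk_eq_zero]; exact hX _ _ hv)).eq_zero n
  beta_reduce at h2
  rwa [Submodule.mkQ_apply, Submodule.Quotient.mk_eq_zero] at h2

lemma Stable.Eo_mem (hρ : IsRational ρ) {X : Submodule k V} (hX : Stable ρ X) {v : V} (hv : v ∈ X)
    (n : ℕ) : Eo hρ n v ∈ X := by
  have h := (Eo_spec hρ v).map X.mkQ
  have h2 := (h.congr (ψ := fun _ => (0 : V ⧸ X)) (fun a => by
    symm; rw [Submodule.mkQ_apply, Submodule.Quotient.mk_eq_zero]; exact hX _ _ hv)).eq_zero n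
  beta_reduce at h2
  rwa [Submodule.mkQ_apply, Submodule.Quotient.mk_eq_zero] at h2

lemma IsWt.add {n : ℤ} {v w : V} (h : IsWt ρ n v) (h' : IsWt ρ n w) : IsWt ρ n (v + w) := by
  intro z
  rw [map_add, h z, h' z, smul_add]

lemma IsWt.sub {n : ℤ} {v w : V} (h : IsWt ρ n v) (h' : IsWt ρ n w) : IsWt ρ n (v - w) := by
  intro z
  rw [map_sub, h z, h' z, smul_sub]

lemma IsWt.smul {n : ℤ} {v : V} (h : IsWt ρ n v) (c : k) : IsWt ρ n (c • v) := by
  intro z
  rw [map_smul, h z, smul_comm]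

lemma isWt_zero (n : ℤ) : IsWt ρ n (0 : V) := by
  intro z
  rw [map_zero, smul_zero]

lemma mul_apply' (ρ : Representation k (G k) V) (g h : G k) (v : V) :
    ρ (g * h) v = ρ g (ρ h v) := by rw [map_mul]; rfl

lemma wt_tor (hρ : IsRational ρ) (n : ℤ) (z : kˣ) (v : V) :
    wt hρ n (ρ (tor z) v) = ((z ^ n : kˣ) : k) • wt hρ n v := by
  have h1 := wt_spec hρ (ρ (tor z) v)
  have h2 := ((wt_spec hρ v).dilate z)
  have h3 := h1.unique (h2.congr (fun a => by
    rw [← mul_apply', tor_mul, mul_comm]))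
  exact congrFun h3 n

lemma wt_w0 (hρ : IsRational ρ) (n : ℤ) (v : V) :
    wt hρ n (ρ w0 v) = ρ w0 (wt hρ (-n) v) := by
  have h1 := wt_spec hρ (ρ w0 v)
  have h2 := ((wt_spec hρ v).inv).map (ρ w0)
  have h3 := h1.unique (h2.congr (fun a => by
    rw [← mul_apply', tor_w0, mul_apply']))
  exact congrFun h3 n

lemma isWt_w0 {n : ℤ} {v : V} (h : IsWt ρ n v) : IsWt ρ (-n) (ρ w0 v) := by
  intro z
  rw [← mul_apply', tor_w0, mul_apply', h, map_smul, zpow_neg, inv_zpow]

/-- the lowering operators -/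
noncomputable def Fo (hρ : IsRational ρ) (j : ℕ) (v : V) : V :=
  (-1 : k) ^ j • ρ w0 (Eo hρ j (ρ w0⁻¹ v))

lemma w0_inv_apply (ρ : Representation k (G k) V) (v : V) : ρ w0 (ρ w0⁻¹ v) = v := by
  rw [← mul_apply', mul_inv_cancel, map_one]; rfl

lemma Fo_spec (hρ : IsRational ρ) (v : V) :
    PolyCo (fun a => ρ (lo a) v) (fun j => Fo hρ j v) := by
  have h := ((Eo_spec hρ (ρ w0⁻¹ v)).dilate (-1)).map (ρ w0)
  have e : (fun j => (ρ w0) ((-1 : k) ^ j • Eo hρ j (ρ w0⁻¹ v))) = fun j => Fo hρ j v := by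
    funext j
    rw [map_smul]
    rfl
  rw [e] at h
  refine h.congr (fun a => ?_)
  rw [← mul_apply', ← mul_apply', ← lo_eq, mul_assoc, mul_inv_cancel, mul_one]

lemma isWt_w0_inv {n : ℤ} {v : V} (h : IsWt ρ n v) : IsWt ρ (-n) (ρ w0⁻¹ v) := by
  intro z
  have e : tor z * (w0 : G k)⁻¹ = w0⁻¹ * tor z⁻¹ := by
    have := tor_w0 (k := k) z⁻¹
    rw [inv_inv] at this
    rw [eq_inv_mul_iff_mul_eq, ← mul_assoc, ← this, mul_assoc, mul_inv_cancel, mul_one]
  rw [← mul_apply', e, mul_apply', h, map_smul, zpow_neg, inv_zpow]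

lemma Fo_isWt (hρ : IsRational ρ) {n : ℤ} {v : V} (h : IsWt ρ n v) (j : ℕ) :
    IsWt ρ (n - 2 * j) (Fo hρ j v) := by
  have h1 := isWt_w0 (Eo_isWt hρ (isWt_w0_inv h) j)
  have h2 := h1.smul ((-1 : k) ^ j)
  rw [show -(-n + 2 * (j : ℤ)) = n - 2 * j by ring] at h2
  exact h2

lemma Fo_zero (hρ : IsRational ρ) (v : V) : Fo hρ 0 v = v := by
  unfold Fo
  rw [Eo_zero, pow_zero, one_smul, w0_inv_apply]

/-- lower unipotent matrices do not raise weights -/
lemma lo_wt (hρ : IsRational ρ) {l m : ℤ} {v : V} (h : IsWt ρ l v) (hm : l ≤ m) (c : k) :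
    wt hρ m (ρ (lo c) v) = if l = m then v else 0 := by
  obtain ⟨d, h1⟩ := ((Fo_spec hρ v).map (wt hρ m)).extend
  have h2 := (h1 (d + 1) (by omega)).2 c
  rw [sum_range_succ', pow_zero, one_smul, Fo_zero] at h2
  rw [h2]
  have h3 : ∑ j ∈ range d, c ^ (j + 1) • wt hρ m (Fo hρ (j + 1) v) = 0 := by
    apply sum_eq_zero
    intro j _
    rw [wt_ne hρ (Fo_isWt hρ h (j + 1)) (by push_cast; omega), smul_zero]
  rw [h3, zero_add, wt_of_isWt hρ h]
  by_cases hlm : l = m
  · rw [if_pos hlm, if_pos hlm.symm]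
  · rw [if_neg hlm, if_neg (Ne.symm hlm)]

end ops

end Pool.Agent.Helper66.TR
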